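import Pool.Agent.Lib.MP_3145b1_co.UM.Spec2

/-!
# MP_3145b1_co, project LD (architect helper45): low-degree weight, polynomial threshold functions

THEOREMS (`V = Var f`, `I = I(f)`, `W` = Fourier weight of the levels `1, .., d`). (A) For EVERY Boolean function and every `d ≥ 1` with
`W > 0` there is `S ≠ ∅` with `V log (1/f^(S)^2) ≤ 14 d^2 I + 3 d V log (V/W)`. (B) Every polynomial threshold function of degree `d` (arbitrary
coefficients, any number of variables) satisfies the min-entropy inequality with the constant `50 d^2` (so it is a leaf of UM/Spec2). (C) Q1 with a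
constant `C(k, d)` for every Boolean function of `k` polynomial threshold functions of degree `d` (e.g. intersections of `k` halfspaces).

RULES. Module X: file Pool/Agent/Lib/MP_3145b1_co/LD/X.lean, `import Pool.Agent.Lib.MP_3145b1_co.LD.Spec`,
`set_option autoImplicit false`, `namespace Pool.Agent.MP3145b1.LD`,
`open Finset Pool.Agent.MP3145b1 Pool.Agent.MP3145b1.RC Pool.Agent.MP3145b1.RD Pool.Agent.MP3145b1.RT Pool.Agent.MP3145b1.UM`, final theorem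
`theorem rX (h1 : S_A) ... : S_X` (the statements under Uses, in this order, are the hypotheses). Auxiliary lemmas private, names X_.
READ FIRST: Cube.lean (coeff, influence, sgn), T.mean (T/Tree.lean) and its lemmas in Q/Avg.lean: Q.mean_add, Q.mean_sub, Q.mean_mul, Q.mean_const, Q.mean_mono, Q.mean_sum,
Q.mean_upd, Q.mean_cs, Q.coeff_mean (`coeff f S = T.mean (f * sgn · S)`), Q.parseval (`∑ coeff f S ^2 = T.mean (f^2)`), Q.coeff_zero, Q.sgn_upd_out, Q.sgn_upd_in.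
Sums over `S : Finset (Fin N)` are sums over `univ`. For a function `f` with values `1, -1`: `∑_S coeff f S^2 = 1`, `V = 1 - coeff f ∅^2 = ∑_{S ≠ ∅} coeff f S^2 ≤ influence f`.
-/

set_option autoImplicit false

namespace Pool.Agent.MP3145b1.LD

open Finset Pool.Agent.MP3145b1 Pool.Agent.MP3145b1.RC Pool.Agent.MP3145b1.RD Pool.Agent.MP3145b1.RT Pool.Agent.MP3145b1.UM

/-! ## Part 1: transfer of the results of UM for unbiased bits to the cube -/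

/-- the weights `2^i` -/
noncomputable def tw (i : ℕ) : ℝ := (2 : ℝ) ^ i

/-- unbiased bits -/
noncomputable def hf (_ : ℕ) : ℝ := 1 / 2

/-- the point of the cube with the number `y` -/
noncomputable def xb (N : ℕ) (y : ℝ) : Fin N → Bool := fun j => decide (j.val ∈ ⌊y⌋₊.bitIndices.toFinset)

/-- influence of the variable `i` -/
noncomputable def Qf {N : ℕ} (f : (Fin N → Bool) → ℝ) (i : Fin N) : ℝ :=
  ∑ S ∈ univ.filter (fun S : Finset (Fin N) => i ∈ S), coeff f S ^ 2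

/-- Fourier weight of the levels `1, .., d` -/
noncomputable def Wd {N : ℕ} (f : (Fin N → Bool) → ℝ) (d : ℕ) : ℝ :=
  ∑ S ∈ univ.filter (fun S : Finset (Fin N) => S ≠ ∅ ∧ S.card ≤ d), coeff f S ^ 2

/-- **LTr** (transfer). Uses: S_TCfo. (MODEL: UM/ULv.lean, UM/UUa.lean.)
Proof. `F y = f (xb N y)`. `P i = if h : i < N then {⟨i, h⟩} else ∅`, `u i = if h : i < N then (fun x => if x ⟨i, h⟩ then -1 else 1) else (fun _ => 1)`, `Cp P u`. For `U ⊆ range N`: `⌊∑ i ∈ U, 2^i⌋₊.bitIndices.toFinset = U`, so `f x = F (0 + ∑ i ∈ range N, (if u i x = -1 then tw i else 0))`. S_TCfo: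
`coeff f S = Lp P N (fun i R => coeff (u i) R) S * Co tw (pb u) (range N) (TT P N S) F 0`; `TT P N S = S.map Fin.valEmbedding`, `Lp = ∏ coeff (u i) {i} = 1`, `pb u i = 1/2` for `i < N` (`coeff (u i) ∅ = 0`), and `Co .. (range N) T` depends only on the values of `p` at `i ∈ range N` (unfold Co, Av, Finset.prod_congr). -/
def S_LTr : Prop := ∀ (N : ℕ) (f : (Fin N → Bool) → ℝ) (S : Finset (Fin N)),
  coeff f S = Co tw hf (range N) (S.map Fin.valEmbedding) (fun y => f (xb N y)) 0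

/-- **LH4** (fourth moment of a polynomial of degree `d`). Uses: S_UHc, S_URp, S_LTr.
Proof. `F y = g (xb N y)`, `c T = Co tw hf (range N) T F 0`. Every `T ⊆ range N` is `S.map Fin.valEmbedding` for a unique `S`, `|T| = |S|`, so `c T = 0` for `d < |T|` and `∑_T c T^2 = ∑_S coeff g S^2 = T.mean (g^2)`. `T.mean (g^4) = coeff (g^4) ∅ = Co .. ∅ (F^4) 0 = Av tw hf (range N) (F^4) 0 = EU hf (range N) (fun U => F (0 + ∑ U)^4)` (Q.coeff_mean, S_LTr, Co_empty, Av_eq_EU).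
S_URp: `F (0 + ∑ U) = Py hf (range N) c U`. S_UHc with `ρ = 1/2` (`vi hf i = 1`, `(1/2)^4 = 1/16`) and the coefficients `2^|T| * c T`: `≤ (∑_T wt 4^|T| c T^2)^2 ≤ (4^d ∑ c T^2)^2` (`wt = 1`). -/
def S_LH4 : Prop := ∀ (N d : ℕ) (g : (Fin N → Bool) → ℝ), (∀ S : Finset (Fin N), d < S.card → coeff g S = 0) →
  T.mean (fun x => g x ^ 4) ≤ 16 ^ d * T.mean (fun x => g x ^ 2) ^ 2

/-- **LH1** (first and second moment). Uses: S_LH4.
Proof. Q.mean_cs twice: `(E g^2)^2 = (E |g|^(1/2) |g|^(3/2))^2 ≤ E |g| E |g|^3` (use `u = sqrt |g|`, `v = sqrt |g| * |g|`), `(E |g|^3)^2 = (E |g| g^2)^2 ≤ E g^2 E g^4`. With `m = E g^2`: `m^4 ≤ (E |g|)^2 m E g^4 ≤ (E |g|)^2 m 16^d m^2`; `m = 0` clear (then the right side is `≥ 0`), otherwise divide by `m^3`. -/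
def S_LH1 : Prop := ∀ (N d : ℕ) (g : (Fin N → Bool) → ℝ), (∀ S : Finset (Fin N), d < S.card → coeff g S = 0) →
  T.mean (fun x => g x ^ 2) ≤ 16 ^ d * T.mean (fun x => |g x|) ^ 2

/-- **LIn** (noisy influence on the cube). Uses: S_UIn, S_LTr.
Proof. `F y = f (xb N y)`, `J = range N`, `c T = Co tw hf J T F 0`, `i' = i.val`. The sets `S ∋ i` correspond to the `insert i' T`, `T ⊆ J.erase i'` (`S.map Fin.valEmbedding`), `|S| - 1 = |T|`, `coeff f S = c (insert i' T)` (S_LTr). `vi hf j = 1`, `wt = 1`, `rr hf j = 1/4`, `QQ = Qf f i`. S_UIn (`hf` in `[0,1]`). -/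
def S_LIn : Prop := ∀ (N : ℕ) (f : (Fin N → Bool) → ℝ) (i : Fin N), (∀ x, f x = 1 ∨ f x = -1) →
  ∑ S ∈ univ.filter (fun S : Finset (Fin N) => i ∈ S), (1 / 4 : ℝ) ^ (S.card - 1) * coeff f S ^ 2 ≤ Qf f i * Real.sqrt (Qf f i)

/-- **LKk** (a large influence). Uses: S_ULg, S_UAv, S_LTr.
Proof. `F y = f (xb N y)`, `J = range N`, `c T = Co tw hf J T F 0`; sums over `T ∈ J.powerset.erase ∅` are sums over `S ≠ ∅` (`T = S.map Fin.valEmbedding`), `V = ∑_{S ≠ ∅} coeff f S^2`. `ι T = if h : T.Nonempty then h.choose else 0`. S_ULg (`log (1/vi) = 0`, `wt = 1`): `∑_{T ≠ ∅} c T^2 (2 log (1/QQ (ι T))) ≤ 10 ∑ (|T| - 1) c T^2 = 10 (I - V)`. S_UAv: `T1` with `c T1^2 > 0` and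
`V * (2 log (1/QQ i')) ≤ 10 (I - V)`, `i' = ι T1 ∈ T1`; `QQ i' = Qf f i ≥ c T1^2 > 0` for `i = ⟨i', _⟩` (as in LIn). -/
def S_LKk : Prop := ∀ (N : ℕ) (f : (Fin N → Bool) → ℝ), (∀ x, f x = 1 ∨ f x = -1) → 0 < 1 - coeff f ∅ ^ 2 →
  ∃ i : Fin N, 0 < Qf f i ∧ (1 - coeff f ∅ ^ 2) * Real.log (1 / Qf f i) ≤ 5 * (influence f - (1 - coeff f ∅ ^ 2))

/-! ## Part 2: the low-degree inequality (on the cube) -/

/-- **LIs** (edge-isoperimetric inequality). Uses: S_LKk.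
Proof. `Qf f i ≤ ∑_{S ≠ ∅} coeff f S^2 = V`, so `log (1/V) ≤ log (1/Qf f i)`. -/
def S_LIs : Prop := ∀ (N : ℕ) (f : (Fin N → Bool) → ℝ), (∀ x, f x = 1 ∨ f x = -1) → 0 < 1 - coeff f ∅ ^ 2 →
  (1 - coeff f ∅ ^ 2) * Real.log (1 / (1 - coeff f ∅ ^ 2)) ≤ 5 * (influence f - (1 - coeff f ∅ ^ 2))

/-- **LCt** (number of small subsets). Uses: nothing.
Proof. Induction on `d`: the sets `S ⊆ L` with `|S| ≤ d + 1` are the images of the pairs `(S', a)`, `S' ⊆ L`, `|S'| ≤ d`, `a ∈ L` or none: `S = insert a S'` or `S = S'` (a set of size `d+1` is `insert a (S.erase a)`), so the number is `≤ (1+|L|)^d (1 + |L|)` (Finset.card_image_le for a map on `A ×ˢ (insertNone L)`, or card of a union: `A ∪ (A ×ˢ L).image (fun q => insert q.2 q.1)`). -/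
def S_LCt : Prop := ∀ (N d : ℕ) (L : Finset (Fin N)),
  ((univ : Finset (Finset (Fin N))).filter (fun S => S ⊆ L ∧ S.card ≤ d)).card ≤ (1 + L.card) ^ d

/-- **LMx** (a large coefficient of low degree). Uses: S_LIn, S_LCt.
Proof. `w = Wd f d > 0`, `I = influence f = ∑_i Qf f i > 0` (`|S| coeff^2 = ∑_{i ∈ S} coeff^2`, exchange; `w ≤ I`). `θ = (w/(2 * 4^d * I))^2`, `L = {i : θ ≤ Qf f i}`, `|L| θ ≤ I`, so `|L| ≤ B := 4 * 16^d * I^3/w^2`. For `i ∉ L`: `∑_{S ∋ i, |S| ≤ d} coeff^2 ≤ 4^d ∑_{S ∋ i} (1/4)^(|S|-1) coeff^2 ≤ 4^d Qf f i sqrt (Qf f i) ≤ 4^d (Qf f i) sqrt θ` (S_LIn),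
so `∑_{1 ≤ |S| ≤ d, S ⊄ L} coeff^2 ≤ ∑_{i ∉ L} .. ≤ 4^d I sqrt θ = w/2`. So `∑_{1 ≤ |S| ≤ d, S ⊆ L} coeff^2 ≥ w/2`. At most `(1 + |L|)^d ≤ (1 + B)^d` sets (S_LCt), so the largest term (the family is not empty because the sum is positive; Finset.exists_le_of_sum_le or sum_le_card_nsmul) satisfies `w/2 ≤ (1 + B)^d coeff^2`. -/
def S_LMx : Prop := ∀ (N d : ℕ) (f : (Fin N → Bool) → ℝ), (∀ x, f x = 1 ∨ f x = -1) → 1 ≤ d → 0 < Wd f d →
  ∃ S : Finset (Fin N), S ≠ ∅ ∧ S.card ≤ d ∧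
    Wd f d / 2 ≤ (1 + 4 * 16 ^ d * influence f ^ 3 / Wd f d ^ 2) ^ d * coeff f S ^ 2

/-- **LLg** (THEOREM A). Uses: S_LMx, S_LIs.
Proof. `V = 1 - coeff f ∅^2 ≥ w = Wd f d > 0`, `V ≤ 1`, `I = λ V` with `λ ≥ 1`, `r = w/V ∈ (0, 1]`. `coeff f S ≠ 0` (LMx, `w > 0`). `log (1/coeff^2) ≤ log (2/w) + d log (1 + 4 * 16^d I^3/w^2)`. `log (2/w) = log 2 + log (1/V) + log (1/r) ≤ 0.7 + 5 (λ - 1) + log (1/r)` (S_LIs divided by `V`).
`4 * 16^d I^3/w^2 = 4 * 16^d λ^3 V/r^2 ≤ 4 * 16^d λ^3/r^2` and `1 ≤ 16^d λ^3/r^2`, so `log (1 + ..) ≤ log 5 + d log 16 + 3 log λ + 2 log (1/r) ≤ 1.61 + 2.78 d + 3 (λ - 1) + 2 log (1/r)`. Sum `≤ 0.7 + 5 (λ-1) + d (1.61 + 2.78 d + 3 (λ-1)) + (1 + 2 d) log (1/r) ≤ 14 d^2 λ + 3 d log (1/r)` (`d ≥ 1`, `λ ≥ 1`). Multiply by `V`.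
(`log 5 ≤ 1.61`: or use `log 5 ≤ log 8 = 3 log 2 ≤ 2.08`, then `2.08 - 3 < 0` is still fine: `0.7 - 5 + 5λ + (2.08 - 3) d + 2.78 d^2 + 3 d λ ≤ 11 d^2 λ`.) -/
def S_LLg : Prop := ∀ (N d : ℕ) (f : (Fin N → Bool) → ℝ), (∀ x, f x = 1 ∨ f x = -1) → 1 ≤ d → 0 < Wd f d →
  ∃ S : Finset (Fin N), S ≠ ∅ ∧ coeff f S ≠ 0 ∧
    (1 - coeff f ∅ ^ 2) * Real.log (1 / coeff f S ^ 2) ≤
      14 * d ^ 2 * influence f + 3 * d * ((1 - coeff f ∅ ^ 2) * Real.log ((1 - coeff f ∅ ^ 2) / Wd f d))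

/-- **LPt** (low-degree weight of a polynomial threshold function). Uses: S_LH1.
Proof. `μ = coeff f ∅`, `V = 1 - μ^2`, `m1 = T.mean |g| > 0`. `X = ∑_{S ≠ ∅} coeff f S * coeff g S = T.mean (f g) - μ * coeff g ∅` (Plancherel: polarise Q.parseval, i.e. parseval for `f + g`, `f`, `g`, coeff linear). `T.mean (f g) = m1`, `|coeff g ∅| = |T.mean g| ≤ m1`, so `X ≥ m1 (1 - |μ|) ≥ m1 V/2`.
Cauchy-Schwarz over the `S ≠ ∅` with `|S| ≤ d` (the other terms vanish): `X^2 ≤ Wd f d * ∑_S coeff g S^2 = Wd f d * T.mean (g^2) ≤ Wd f d * 16^d m1^2`. So `m1^2 V^2/4 ≤ 16^d (Wd f d) m1^2`. -/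
def S_LPt : Prop := ∀ (N d : ℕ) (f g : (Fin N → Bool) → ℝ), (∀ x, f x = 1 ∨ f x = -1) →
  (∀ S : Finset (Fin N), d < S.card → coeff g S = 0) → (∀ x, f x * g x = |g x|) → (∃ x, g x ≠ 0) →
  (1 - coeff f ∅ ^ 2) ^ 2 / (4 * 16 ^ d) ≤ Wd f d

/-- **LPf** (THEOREM B). Uses: S_LLg, S_LIs, S_LPt.
Proof. Let `V > 0`. `d = 0`: `g` is constant (all coefficients at `S ≠ ∅` vanish; `g x = ∑ coeff g S sgn x S`, or parseval for `g - coeff g ∅`), not `0`, so `f = |g|/g` is constant and `V = 0` (or: LPt gives `V^2/4 ≤ Wd f 0 = 0`). `d ≥ 1`: `w = Wd f d ≥ V^2/(4 * 16^d) > 0`, `V/w ≤ 4 * 16^d/V`, `log (V/w) ≤ 1.4 + 2.78 d + log (1/V)`,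
`V log (1/V) ≤ 5 (I - V) ≤ 5 I`, `V ≤ I`. S_LLg: `≤ 14 d^2 I + 3 d (1.4 + 2.78 d) I + 15 d I ≤ 50 d^2 I`. -/
def S_LPf : Prop := ∀ (N d : ℕ) (f g : (Fin N → Bool) → ℝ), (∀ x, f x = 1 ∨ f x = -1) →
  (∀ S : Finset (Fin N), d < S.card → coeff g S = 0) → (∀ x, f x * g x = |g x|) → (∃ x, g x ≠ 0) → Pm (50 * d ^ 2) f

/-- **LNs** (Q1 for functions concentrated on low levels). Uses: S_LLg.
Proof. `V = 1 - coeff f ∅^2`. `V ≤ 1/2`: `|coeff f ∅| ≥ exp (-V) ≥ exp (-I)` (as in UM/UMn.lean: `1 - V ≥ exp (-2V)`). `V > 1/2`: `w = Wd f d ≥ 3/4 - (1 - V) = V - 1/4 > 0`, `V/w ≤ 2`, S_LLg: `V log (1/coeff^2) ≤ 14 d^2 I + 3 d V log 2 ≤ (14 d^2 + 2.1 d) I ≤ 17 d^2 I`, `V > 1/2`: `log (1/coeff^2) ≤ 34 d^2 I`, `|coeff| ≥ exp (-17 d^2 I)`. -/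
def S_LNs : Prop := ∀ (N d : ℕ) (f : (Fin N → Bool) → ℝ), (∀ x, f x = 1 ∨ f x = -1) → 1 ≤ d →
  3 / 4 ≤ ∑ S ∈ univ.filter (fun S : Finset (Fin N) => S.card ≤ d), coeff f S ^ 2 →
  ∃ S : Finset (Fin N), Real.exp (-(20 * d ^ 2 * influence f)) ≤ |coeff f S|

/-! ## Part 3: functions of `k` polynomial threshold functions (noise stability by blocks) -/

/-- `f` (values `1`, `-1`) is a polynomial threshold function of degree `d`: the sign of a polynomial of degree `d` without zeros on the cube -/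
def Pt {N : ℕ} (d : ℕ) (f : (Fin N → Bool) → ℝ) : Prop := (∀ x, f x = 1 ∨ f x = -1) ∧
  ∃ g : (Fin N → Bool) → ℝ, (∀ S : Finset (Fin N), d < S.card → coeff g S = 0) ∧ ∀ x, 0 < f x * g x

/-- bound for the total influence of a polynomial threshold function of degree `d` of `m` variables -/
noncomputable def Bq : ℕ → ℕ → ℝ
  | 0, _ => 0
  | d + 1, m => Real.sqrt (m + m * Bq d m)

/-- **PBq** (the numbers `Bq`). Uses: nothing.
Proof. Induction on `d`, for all `s`. `d = 0`: `0 ≤ 2 m/s`. `d + 1`: `s^(2^(d+1)) = (s^2)^(2^d) = m`, so `Bq d m ≤ 2 m/s^2`; `m + m Bq d m ≤ m + 2 m^2/s^2 ≤ 3 m^2/s^2` (`s^2 ≤ s^(2^(d+1)) = m`), and `sqrt (3 m^2/s^2) ≤ 2 m/s`. -/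
def S_PBq : Prop := ∀ (d m : ℕ) (s : ℝ), 1 ≤ s → s ^ (2 ^ d) = (m : ℝ) → Bq d m ≤ 2 * m / s

/-- the point `x` with the variable `i` flipped -/
def fl {N : ℕ} (i : Fin N) (x : Fin N → Bool) : Fin N → Bool := Function.update x i (!x i)

/-- **PQf** (influence and pivotal probability). Uses: nothing.
Proof. `(f x - f (fl i x))/2 = ∑_{S ∋ i} coeff f S sgn x S`: the function `h x = (f x - f (fl i x))/2` has `coeff h S = coeff f S` if `i ∈ S`, `0` otherwise (`x ↦ fl i x` is a bijection, `sgn (fl i x) S = - sgn x S` if `i ∈ S`, `= sgn x S` otherwise). Parseval: `Qf f i = T.mean (h^2)` and `h^2 = (1 - f x * f (fl i x))/2` (`f^2 = 1`).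
(2): `influence f = ∑_S |S| coeff^2 = ∑_i ∑_{S ∋ i} coeff^2`. -/
def S_PQf : Prop := (∀ (N : ℕ) (f : (Fin N → Bool) → ℝ) (i : Fin N), (∀ x, f x = 1 ∨ f x = -1) →
    Qf f i = T.mean (fun x => (1 - f x * f (fl i x)) / 2)) ∧
  ∀ (N : ℕ) (f : (Fin N → Bool) → ℝ), influence f = ∑ i, Qf f i

/-- **PTi** (total influence of a polynomial threshold function). Uses: S_PQf.
Proof. Induction on `d`, for all `f`. `d = 0`: `g` is a constant `≠ 0` (`coeff g S = 0` for `S ≠ ∅`), so `f` is constant: `f x = f (fl i x)`, `influence f = 0` (S_PQf). `d + 1`: `χ_j x = if x j then -1 else 1`, `g_j x = (g (update x j false) - g (update x j true))/2`; `g_j` does not depend on `x_j`, `coeff g_j S = 0` for `d < |S|`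
(`coeff g_j S = coeff g (insert j S)` if `j ∉ S`, `0` if `j ∈ S`). `h_j x = if 0 ≤ g_j x then 1 else -1` does not depend on `x_j` and `Pt d h_j` (`g_j + ε` for a small `ε > 0`, e.g. `ε` = half of the minimum of the `|g_j x|` over the `x` with `g_j x < 0`, finite set; constants have coefficients only at `∅`). If `f x ≠ f (fl j x)`: `f x * g x > 0`, `f x * g (fl j x) < 0`, so `f x * (g x - g (fl j x)) = 2 f x χ_j x g_j x > 0`,
so `f x χ_j x = h_j x`. So `(f x χ_j x h_j x + f (fl j x) χ_j (fl j x) h_j (fl j x))/2 = (1 - f x f (fl j x))/2` for all `x` (if `f x = f (fl j x)` both sides are `0`), the mean: `T.mean (f χ_j h_j) = Qf f j`. Sum: `influence f = T.mean (f * ∑_j χ_j h_j) ≤ sqrt (T.mean ((∑_j χ_j h_j)^2))` (Q.mean_cs, `f^2 = 1`).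
`T.mean ((∑ χ_j h_j)^2) = m + ∑_{j ≠ l} T.mean (χ_j χ_l h_j h_l)`; pairing `x` with `fl j x` (`h_j`, `χ_l` do not change, `χ_j` changes the sign): `|T.mean (χ_j χ_l h_j h_l)| ≤ T.mean ((1 - h_l x h_l (fl j x))/2) = Qf h_l j`. So the sum is `≤ ∑_l influence h_l ≤ m Bq d m` (induction). So `influence f ≤ sqrt (m + m Bq d m)`. -/
def S_PTi : Prop := ∀ (d m : ℕ) (f : (Fin m → Bool) → ℝ), Pt d f → influence f ≤ Bq d m

/-- the point `x` with the block `j` flipped -/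
def fb {n m : ℕ} (π : Fin n → Fin m) (j : Fin m) (x : Fin n → Bool) : Fin n → Bool :=
  fun i => if π i = j then !x i else x i

/-- **PBl** (blocks). Uses: S_PQf, S_PTi.
Proof. For `σ : Fin m → Bool` put `tx x σ i = xor (x i) (σ (π i))`; for every `σ` the map `x ↦ tx x σ` is a bijection, so `T.mean φ = T.mean (fun x => T.mean (fun σ => φ (tx x σ)))` (exchange the sums). For fixed `x`: `h σ = f (tx x σ)` satisfies `Pt d h` with `g' σ = g (tx x σ)`: `g' σ = ∑_S coeff g S * sgn x S * ∏_{i ∈ S} (if σ (π i) then -1 else 1)`, and `∏_{i ∈ S} χ_(π i) σ = sgn σ S'`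
with `S' = {j : |S ∩ π^-1 j| odd}`, `|S'| ≤ |S| ≤ d`, so `coeff g' S'' = 0` for `|S''| > d` (`coeff` of `sgn · S'` at `S'' ≠ S'` is `0`). `fb π j (tx x σ) = tx x (fl j σ)`. So the left side is `T.mean (fun x => ∑_j T.mean (fun σ => (1 - h σ h (fl j σ))/2)) = T.mean (fun x => influence h) ≤ Bq d m` (S_PQf, S_PTi). -/
def S_PBl : Prop := ∀ (n m d : ℕ) (π : Fin n → Fin m) (f : (Fin n → Bool) → ℝ), Pt d f →
  ∑ j : Fin m, T.mean (fun x => (1 - f x * f (fb π j x)) / 2) ≤ Bq d m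

/-- **PFo** (random blocks). Uses: nothing.
Proof. (a) for fixed `π`, `j`: `sgn (fb π j x) S = (∏_{i ∈ S} if π i = j then -1 else 1) * sgn x S`, and Plancherel: `T.mean (fun x => F x * F (fb π j x)) = ∑_S coeff F S^2 ∏_{i ∈ S} (if π i = j then -1 else 1)` (`x ↦ fb π j x` is a bijection, so the coefficient of `F ∘ fb π j` at `S` is the coefficient of `F` times this sign; polarised parseval). (b) for fixed `S`, `j`:
`∑_{π : Fin n → Fin m} ∏_{i ∈ S} (if π i = j then -1 else 1) = ∏_{i : Fin n} ∑_{b : Fin m} (if i ∈ S then (if b = j then -1 else 1) else 1) = (m - 2)^|S| m^(n - |S|)` (Finset.prod_univ_sum / Fintype.piFinset_univ). Divide by `m^n`, sum over `j` (`m` equal terms). -/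
def S_PFo : Prop := ∀ (n m : ℕ) (F : (Fin n → Bool) → ℝ), 1 ≤ m →
  (∑ π : Fin n → Fin m, ∑ j : Fin m, T.mean (fun x => F x * F (fb π j x))) / (m ^ n * m) =
    ∑ S : Finset (Fin n), coeff F S ^ 2 * (1 - 2 / m) ^ S.card

/-- **PKk** (functions of `k` polynomial threshold functions). Uses: S_PBl, S_PFo.
Proof. `∑_S coeff F S^2 = 1`. `1 - ∑_S coeff F S^2 (1 - 2/m)^|S|` = average over `π`, `j` of `T.mean (fun x => 1 - F x F (fb π j x))` (S_PFo), and `(1 - F x F y)/2 ≤ ∑_l (1 - f l x * f l y)/2` (`F x ≠ F y` implies `f l x ≠ f l y` for some `l`; all terms are `0` or `1`). So it is `≤ 2 * (average over π of (1/m) ∑_l ∑_j T.mean ((1 - f l x * f l (fb π j x))/2)) ≤ 2 k Bq d m/m` (S_PBl; there are `m^n` maps `π`). -/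
def S_PKk : Prop := ∀ (n m d k : ℕ) (f : Fin k → (Fin n → Bool) → ℝ) (F : (Fin n → Bool) → ℝ), 1 ≤ m → (∀ l, Pt d (f l)) →
  (∀ x, F x = 1 ∨ F x = -1) → (∀ x y, (∀ l, f l x = f l y) → F x = F y) →
  1 - ∑ S : Finset (Fin n), coeff F S ^ 2 * (1 - 2 / m) ^ S.card ≤ 2 * k * Bq d m / m

/-- **PCn** (concentration). Uses: S_PKk, S_PBq.
Proof. `k ≥ 1`, `s = 20 k`, `m = (20 k)^(2^d)` (natural numbers), `m ≥ 20`. S_PBq: `Bq d m ≤ 2 m/(20 k)`, so `1 - ∑ coeff^2 (1 - 2/m)^|S| ≤ 4 k/(20 k) = 1/5`. For `|S| > m`: `(1 - 2/m)^|S| ≤ (1 - 2/m)^m ≤ exp (-2) ≤ 1/5` (`1 - x ≤ exp (-x)`, `exp 2 ≥ 5`), so with `Z = ∑_{|S| > m} coeff^2`: `(4/5) Z ≤ ∑ coeff^2 (1 - (1 - 2/m)^|S|) ≤ 1/5`, `Z ≤ 1/4`. -/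
def S_PCn : Prop := ∀ (n d k : ℕ) (f : Fin k → (Fin n → Bool) → ℝ) (F : (Fin n → Bool) → ℝ), 1 ≤ k → (∀ l, Pt d (f l)) →
  (∀ x, F x = 1 ∨ F x = -1) → (∀ x y, (∀ l, f l x = f l y) → F x = F y) →
  3 / 4 ≤ ∑ S ∈ univ.filter (fun S : Finset (Fin n) => S.card ≤ (20 * k) ^ (2 ^ d)), coeff F S ^ 2

/-- **PFn** (THEOREM C). Uses: S_PCn, S_LNs.
Proof. S_LNs with `d := (20 k)^(2^d) ≥ 1`; `((20 k)^(2^d))^2 = (20 k)^(2^(d+1))` (casts). -/
def S_PFn : Prop := ∀ (n d k : ℕ) (f : Fin k → (Fin n → Bool) → ℝ) (F : (Fin n → Bool) → ℝ), 1 ≤ k → (∀ l, Pt d (f l)) →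
  (∀ x, F x = 1 ∨ F x = -1) → (∀ x y, (∀ l, f l x = f l y) → F x = F y) →
  ∃ S : Finset (Fin n), Real.exp (-(20 * (20 * k) ^ (2 ^ (d + 1)) * influence F)) ≤ |coeff F S|

end Pool.Agent.MP3145b1.LD
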