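import Pool.Agent.Lib.MP_3145b1_co.LD.Spec

/-!
# MP_3145b1_co, project LD, module LCt: number of small subsets
-/

set_option autoImplicit false

namespace Pool.Agent.MP3145b1.LD

open Finset Pool.Agent.MP3145b1 Pool.Agent.MP3145b1.RC Pool.Agent.MP3145b1.RD Pool.Agent.MP3145b1.RT Pool.Agent.MP3145b1.UM

/-- **LCt** (number of small subsets) -/
theorem rLCt : S_LCt := by
  classical
  intro N d L
  induction d with
  | zero =>
    rw [pow_zero]
    refine (Finset.card_le_card (t := {∅}) fun S hS => ?_).trans (Finset.card_singleton _).le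
    have h := (Finset.mem_filter.1 hS).2.2
    exact Finset.mem_singleton.2 (Finset.card_eq_zero.1 (Nat.le_zero.1 h))
  | succ d ih =>
    obtain ⟨A, hA⟩ : ∃ A : Finset (Finset (Fin N)),
      A = (univ : Finset (Finset (Fin N))).filter (fun S => S ⊆ L ∧ S.card ≤ d) := ⟨_, rfl⟩
    rw [← hA] at ih
    have hsub : (univ : Finset (Finset (Fin N))).filter (fun S => S ⊆ L ∧ S.card ≤ d + 1) ⊆
        A ∪ (A ×ˢ L).image (fun q => insert q.2 q.1) := by
      intro S hS
      have hS' := (Finset.mem_filter.1 hS).2
      rw [Finset.mem_union]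
      by_cases hc : S.card ≤ d
      · left
        rw [hA]
        exact Finset.mem_filter.2 ⟨Finset.mem_univ S, hS'.1, hc⟩
      · right
        have hne : S.Nonempty := by
          rw [Finset.nonempty_iff_ne_empty]
          rintro rfl
          exact hc (by simp)
        obtain ⟨a, ha⟩ := hne
        refine Finset.mem_image.2 ⟨(S.erase a, a), Finset.mem_product.2 ⟨?_, hS'.1 ha⟩, ?_⟩
        · show S.erase a ∈ A
          rw [hA]
          refine Finset.mem_filter.2 ⟨Finset.mem_univ _, (Finset.erase_subset a S).trans hS'.1, ?_⟩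
          rw [Finset.card_erase_of_mem ha]
          have := hS'.2
          omega
        · exact Finset.insert_erase ha
    refine (Finset.card_le_card hsub).trans ((Finset.card_union_le _ _).trans ?_)
    have h1 : ((A ×ˢ L).image (fun q => insert q.2 q.1)).card ≤ A.card * L.card :=
      Finset.card_image_le.trans (Finset.card_product A L).le
    calc A.card + ((A ×ˢ L).image (fun q => insert q.2 q.1)).card
        ≤ A.card + A.card * L.card := Nat.add_le_add_left h1 _
      _ = A.card * (1 + L.card) := by ring
      _ ≤ (1 + L.card) ^ d * (1 + L.card) := Nat.mul_le_mul_right _ ih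
      _ = (1 + L.card) ^ (d + 1) := (pow_succ _ _).symm

end Pool.Agent.MP3145b1.LD
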