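import Pool.Agent.Lib.MP_3145b1_co.LD.Spec

/-!
# MP_3145b1_co, project LD: first and second moment of a polynomial of degree `d` on the cube
-/

set_option autoImplicit false

namespace Pool.Agent.MP3145b1.LD

open Finset Pool.Agent.MP3145b1 Pool.Agent.MP3145b1.RC Pool.Agent.MP3145b1.RD Pool.Agent.MP3145b1.RT Pool.Agent.MP3145b1.UM

/-- Cauchy-Schwarz, squared form -/
private theorem LH1_cs {n : ℕ} (u v : (Fin n → Bool) → ℝ) :
    (T.mean fun x => u x * v x) ^ 2 ≤ (T.mean fun x => u x ^ 2) * (T.mean fun x => v x ^ 2) := by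
  unfold T.mean
  rw [div_pow, div_mul_div_comm, ← pow_two ((2 : ℝ) ^ n)]
  exact div_le_div_of_nonneg_right (Finset.sum_mul_sq_le_sq_mul_sq _ _ _) (by positivity)

private theorem LH1_num (m a b c K : ℝ) (hm : 0 ≤ m)
    (h1 : m ^ 2 ≤ a * c) (h2 : c ^ 2 ≤ m * b) (h3 : b ≤ K * m ^ 2) (hK : 0 ≤ K) : m ≤ K * a ^ 2 := by
  rcases hm.eq_or_lt with h0 | h0
  · rw [← h0]
    positivity
  · have e1 : m ^ 2 * m ^ 2 ≤ (a * c) * (a * c) := mul_self_le_mul_self (by positivity) h1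
    have e2 : c ^ 2 ≤ m * (K * m ^ 2) := h2.trans (mul_le_mul_of_nonneg_left h3 hm)
    have e3 : a ^ 2 * c ^ 2 ≤ a ^ 2 * (m * (K * m ^ 2)) := mul_le_mul_of_nonneg_left e2 (by positivity)
    have e4 : m ^ 3 * m ≤ m ^ 3 * (K * a ^ 2) := by
      calc m ^ 3 * m = m ^ 2 * m ^ 2 := by ring
        _ ≤ (a * c) * (a * c) := e1
        _ = a ^ 2 * c ^ 2 := by ring
        _ ≤ a ^ 2 * (m * (K * m ^ 2)) := e3
        _ = m ^ 3 * (K * a ^ 2) := by ring
    exact le_of_mul_le_mul_left e4 (by positivity)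

theorem rLH1 (h1 : S_LH4) : S_LH1 := by
  intro N d g hg
  have h4 := h1 N d g hg
  have e1 : (T.mean fun x => g x ^ 2) ^ 2 ≤ (T.mean fun x => |g x|) * (T.mean fun x => |g x| ^ 3) := by
    have h := LH1_cs (fun x => Real.sqrt |g x|) (fun x => Real.sqrt |g x| * |g x|)
    have k1 : ∀ x, Real.sqrt |g x| * (Real.sqrt |g x| * |g x|) = g x ^ 2 := fun x => by
      rw [← mul_assoc, Real.mul_self_sqrt (abs_nonneg _), abs_mul_abs_self, sq]
    have k2 : ∀ x, Real.sqrt |g x| ^ 2 = |g x| := fun x => Real.sq_sqrt (abs_nonneg _)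
    have k3 : ∀ x, (Real.sqrt |g x| * |g x|) ^ 2 = |g x| ^ 3 := fun x => by
      rw [mul_pow, Real.sq_sqrt (abs_nonneg _)]
      ring
    simp only [k1, k2, k3] at h
    exact h
  have e2 : (T.mean fun x => |g x| ^ 3) ^ 2 ≤ (T.mean fun x => g x ^ 2) * (T.mean fun x => g x ^ 4) := by
    have h := LH1_cs (fun x => |g x|) (fun x => g x ^ 2)
    have k1 : ∀ x, |g x| * g x ^ 2 = |g x| ^ 3 := fun x => by
      rw [← sq_abs (g x)]
      ring
    have k2 : ∀ x, |g x| ^ 2 = g x ^ 2 := fun x => sq_abs (g x)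
    have k3 : ∀ x, (g x ^ 2) ^ 2 = g x ^ 4 := fun x => by ring
    simp only [k1, k2, k3] at h
    exact h
  have n1 : 0 ≤ T.mean fun x => g x ^ 2 := Q.mean_nonneg fun x => sq_nonneg _
  exact LH1_num _ _ _ _ _ n1 e1 e2 h4 (by positivity)

end Pool.Agent.MP3145b1.LD
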