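import Pool.Agent.Lib.MP_3145b1_co.LD.Spec

/-!
# MP_3145b1_co, project LD: the fourth moment of a polynomial of degree d (helper60)
-/

set_option autoImplicit false

namespace Pool.Agent.MP3145b1.LD

open Finset Pool.Agent.MP3145b1 Pool.Agent.MP3145b1.RC Pool.Agent.MP3145b1.RD Pool.Agent.MP3145b1.RT Pool.Agent.MP3145b1.UM

private theorem LH4_sum (N : ℕ) (φ : Finset ℕ → ℝ) :
    ∑ T ∈ (range N).powerset, φ T = ∑ S : Finset (Fin N), φ (S.map Fin.valEmbedding) := by
  symm
  refine Finset.sum_bij (fun S _ => S.map Fin.valEmbedding) ?_ ?_ ?_ ?_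
  · intro S _
    rw [Finset.mem_powerset]
    intro i hi
    rw [Finset.mem_map] at hi
    obtain ⟨j, _, rfl⟩ := hi
    exact Finset.mem_range.2 j.2
  · intro S _ S' _ h
    exact Finset.map_injective _ h
  · intro T hT
    have h : ∀ m ∈ T, m < N := fun m hm => Finset.mem_range.1 (Finset.mem_powerset.1 hT hm)
    exact ⟨T.attachFin h, Finset.mem_univ _, Finset.map_valEmbedding_attachFin h⟩
  · intro S _
    rfl

private theorem LH4_vi (i : ℕ) : vi hf i = 1 := by
  unfold vi hf
  norm_num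

private theorem LH4_wt (T : Finset ℕ) : wt hf T = 1 := by
  rw [wt_eq]
  exact Finset.prod_eq_one fun i _ => LH4_vi i

theorem rLH4 (h1 : S_UHc) (h2 : S_URp) (h3 : S_LTr) : S_LH4 := by
  intro N d g hg
  set F : ℝ → ℝ := fun y => g (xb N y) with hF
  set c : Finset ℕ → ℝ := fun T => Co tw hf (range N) T F 0 with hc
  have hp : ∀ i, 0 ≤ hf i ∧ hf i ≤ 1 := fun i => by unfold hf; norm_num
  have hcS : ∀ S : Finset (Fin N), c (S.map Fin.valEmbedding) = coeff g S := fun S => (h3 N g S).symm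
  -- the left side
  have e1 : T.mean (fun x => g x ^ 4) =
      EU hf (range N) (fun U => Py hf (range N)
        (fun T => (∏ _j ∈ T, (1 / 2 : ℝ)) * (2 ^ T.card * c T)) U ^ 4) := by
    have a1 : T.mean (fun x => g x ^ 4) = coeff (fun x => g x ^ 4) ∅ := by
      rw [Q.coeff_mean]
      congr 1
      funext x
      unfold sgn
      rw [Finset.prod_empty, mul_one]
    rw [a1, h3 N (fun x => g x ^ 4) ∅, Finset.map_empty, Co_empty, Av_eq_EU]
    refine EU_congr hf (range N) fun U hU => ?_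
    have a2 : (fun T : Finset ℕ => (∏ _j ∈ T, (1 / 2 : ℝ)) * (2 ^ T.card * c T)) = c := by
      funext T
      rw [Finset.prod_const, ← mul_assoc, ← mul_pow]
      norm_num
    rw [a2]
    have a3 := h2 tw hf (range N) F 0 U hU
    rw [hc, a3]
  have e2 := h1 hf (fun _ => 1 / 2) hp (fun i => ⟨by norm_num, by rw [LH4_vi]; norm_num⟩)
    (range N) (fun T => 2 ^ T.card * c T)
  rw [← e1] at e2
  -- the right side
  have e3 : ∑ T ∈ (range N).powerset, wt hf T * (2 ^ T.card * c T) ^ 2 ≤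
      4 ^ d * T.mean (fun x => g x ^ 2) := by
    rw [LH4_sum N (fun T => wt hf T * (2 ^ T.card * c T) ^ 2), ← Q.parseval, Finset.mul_sum]
    refine Finset.sum_le_sum fun S _ => ?_
    rw [LH4_wt, hcS, Finset.card_map, one_mul, mul_pow, ← pow_mul, mul_comm S.card 2, pow_mul]
    by_cases hS : d < S.card
    · rw [hg S hS]
      norm_num
    · have h4 : ((2 : ℝ) ^ 2) ^ S.card ≤ 4 ^ d := by
        norm_num
        exact pow_le_pow_right₀ (by norm_num) (not_lt.1 hS)
      exact mul_le_mul_of_nonneg_right h4 (sq_nonneg _)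
  have e4 : 0 ≤ ∑ T ∈ (range N).powerset, wt hf T * (2 ^ T.card * c T) ^ 2 :=
    Finset.sum_nonneg fun T _ => by rw [LH4_wt, one_mul]; exact sq_nonneg _
  refine e2.trans ((pow_le_pow_left₀ e4 e3 2).trans (le_of_eq ?_))
  rw [mul_pow, ← pow_mul, mul_comm d 2, pow_mul]
  norm_num

end Pool.Agent.MP3145b1.LD
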