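import Pool.Agent.Lib.MP_3145b1_co.LD.Spec

/-!
# MP_3145b1_co, project LD, module LIn: noisy influence on the cube
-/

set_option autoImplicit false

namespace Pool.Agent.MP3145b1.LD

open Finset Pool.Agent.MP3145b1 Pool.Agent.MP3145b1.RC Pool.Agent.MP3145b1.RD Pool.Agent.MP3145b1.RT
  Pool.Agent.MP3145b1.UM

private theorem LIn_vi (j : ℕ) : vi hf j = 1 := by
  unfold vi hf
  norm_num

private theorem LIn_rr (j : ℕ) : rr hf j = 1 / 4 := by
  unfold rr
  rw [LIn_vi, Real.sqrt_one]

private theorem LIn_wt (T : Finset ℕ) : wt hf T = 1 := by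
  rw [wt_eq]
  exact Finset.prod_eq_one fun j _ => LIn_vi j

/-- the correspondence of the index sets -/
private theorem LIn_sum {N : ℕ} (i : Fin N) (g : Finset ℕ → ℝ) (h : Finset (Fin N) → ℝ)
    (hgh : ∀ S : Finset (Fin N), i ∈ S → h S = g ((S.erase i).map Fin.valEmbedding)) :
    ∑ S ∈ univ.filter (fun S : Finset (Fin N) => i ∈ S), h S =
      ∑ T ∈ ((range N).erase i.val).powerset, g T := by
  refine Finset.sum_bij' (fun S _ => (S.erase i).map Fin.valEmbedding)
    (fun T _ => insert i (univ.filter fun j : Fin N => j.val ∈ T)) ?_ ?_ ?_ ?_ ?_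
  · intro S _
    rw [Finset.mem_powerset]
    intro k hk
    obtain ⟨j, hj, rfl⟩ := Finset.mem_map.1 hk
    obtain ⟨hj1, hj2⟩ := Finset.mem_erase.1 hj
    rw [Finset.mem_erase]
    refine ⟨fun e => hj1 (Fin.ext e), ?_⟩
    exact Finset.mem_range.2 j.isLt
  · intro T _
    simp
  · intro S hS
    have hi : i ∈ S := (Finset.mem_filter.1 hS).2
    ext j
    simp only [Finset.mem_insert, Finset.mem_filter, Finset.mem_univ, true_and, Finset.mem_map,
      Finset.mem_erase, Fin.valEmbedding_apply]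
    constructor
    · rintro (rfl | ⟨k, ⟨_, hk⟩, e⟩)
      · exact hi
      · rw [← Fin.ext e]
        exact hk
    · intro hj
      by_cases hji : j = i
      · exact Or.inl hji
      · exact Or.inr ⟨j, ⟨hji, hj⟩, rfl⟩
  · intro T hT
    have hT' := Finset.mem_powerset.1 hT
    ext k
    simp only [Finset.mem_map, Finset.mem_erase, Finset.mem_insert, Finset.mem_filter,
      Finset.mem_univ, true_and, Fin.valEmbedding_apply]
    constructor
    · rintro ⟨j, ⟨hj1, hj2⟩, rfl⟩
      rcases hj2 with hj2 | hj2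
      · exact absurd hj2 hj1
      · exact hj2
    · intro hk
      obtain ⟨h1, h2⟩ := Finset.mem_erase.1 (hT' hk)
      exact ⟨⟨k, Finset.mem_range.1 h2⟩, ⟨fun e => h1 (by rw [← e]), Or.inr hk⟩, rfl⟩
  · intro S hS
    exact hgh S (Finset.mem_filter.1 hS).2

private theorem LIn_map {N : ℕ} (i : Fin N) (S : Finset (Fin N)) (hi : i ∈ S) :
    S.map Fin.valEmbedding = insert i.val ((S.erase i).map Fin.valEmbedding) := by
  conv_lhs => rw [← Finset.insert_erase hi, Finset.map_insert]
  rfl

theorem rLIn (h1 : S_UIn) (h2 : S_LTr) : S_LIn := by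
  intro N f i hv
  have hp : ∀ j, 0 ≤ hf j ∧ hf j ≤ 1 := fun j => by unfold hf; norm_num
  have key := h1 tw hf (range N) (fun y => f (xb N y)) 0 i.val hp (fun y => hv _)
    (Finset.mem_range.2 i.isLt)
  have e1 : Qf f i = QQ tw hf (range N) (fun y => f (xb N y)) 0 i.val := by
    unfold Qf QQ
    refine LIn_sum i _ _ fun S hi => ?_
    rw [LIn_wt, one_mul, h2 N f S, LIn_map i S hi]
  have e2 : ∑ S ∈ univ.filter (fun S : Finset (Fin N) => i ∈ S),
      (1 / 4 : ℝ) ^ (S.card - 1) * coeff f S ^ 2 =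
      ∑ T ∈ ((range N).erase i.val).powerset, (∏ j ∈ T, rr hf j) *
        (wt hf T * Co tw hf (range N) (insert i.val T) (fun y => f (xb N y)) 0 ^ 2) := by
    refine LIn_sum i _ _ fun S hi => ?_
    rw [LIn_wt, one_mul, h2 N f S, LIn_map i S hi, Finset.prod_congr rfl fun j _ => LIn_rr j,
      Finset.prod_const, Finset.card_map, Finset.card_erase_of_mem hi]
  rw [e1, e2]
  exact key

end Pool.Agent.MP3145b1.LD
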