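import Pool.Agent.Lib.MP_3145b1_co.LD.Spec

/-! Project LD (MP_3145b1_co), statement `LIs`: the edge-isoperimetric inequality. -/

set_option autoImplicit false

namespace Pool.Agent.MP3145b1.LD

open Finset Pool.Agent.MP3145b1 Pool.Agent.MP3145b1.RC Pool.Agent.MP3145b1.RD Pool.Agent.MP3145b1.RT Pool.Agent.MP3145b1.UM

/-- Parseval for functions with values `1, -1`. -/
private theorem LIs_sum {N : ℕ} (f : (Fin N → Bool) → ℝ) (hf : ∀ x, f x = 1 ∨ f x = -1) :
    ∑ S : Finset (Fin N), coeff f S ^ 2 = 1 := by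
  rw [Q.parseval]
  have h1 : (fun x => f x ^ 2) = fun _ : Fin N → Bool => (1 : ℝ) := by
    funext x
    rcases hf x with h | h <;> rw [h] <;> norm_num
  rw [h1, Q.mean_const]

/-- the influence of a variable is at most the variance -/
private theorem LIs_le {N : ℕ} (f : (Fin N → Bool) → ℝ) (hf : ∀ x, f x = 1 ∨ f x = -1) (i : Fin N) :
    Qf f i ≤ 1 - coeff f ∅ ^ 2 := by
  have h1 : ∑ S : Finset (Fin N), coeff f S ^ 2 =
      coeff f ∅ ^ 2 + ∑ S ∈ (univ : Finset (Finset (Fin N))).erase ∅, coeff f S ^ 2 :=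
    (Finset.add_sum_erase univ (fun S => coeff f S ^ 2) (Finset.mem_univ ∅)).symm
  rw [LIs_sum f hf] at h1
  have h2 : Qf f i ≤ ∑ S ∈ (univ : Finset (Finset (Fin N))).erase ∅, coeff f S ^ 2 := by
    unfold Qf
    apply Finset.sum_le_sum_of_subset_of_nonneg
    · intro S hS
      rw [Finset.mem_filter] at hS
      rw [Finset.mem_erase]
      refine ⟨fun h => ?_, Finset.mem_univ S⟩
      rw [h] at hS
      exact absurd hS.2 (Finset.notMem_empty i)
    · intro S _ _
      positivity
  linarith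

theorem rLIs (h1 : S_LKk) : S_LIs := by
  intro N f hf hV
  obtain ⟨i, hi, hle⟩ := h1 N f hf hV
  have h2 := LIs_le f hf i
  have h3 : Real.log (1 / (1 - coeff f ∅ ^ 2)) ≤ Real.log (1 / Qf f i) := by
    apply Real.log_le_log
    · positivity
    · exact one_div_le_one_div_of_le hi h2
  exact (mul_le_mul_of_nonneg_left h3 hV.le).trans hle

end Pool.Agent.MP3145b1.LD
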