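import Pool.Agent.Lib.MP_3145b1_co.LD.Spec

/-!
# MP_3145b1_co, project LD: a large influence
-/

set_option autoImplicit false

namespace Pool.Agent.MP3145b1.LD

open Finset Pool.Agent.MP3145b1 Pool.Agent.MP3145b1.RC Pool.Agent.MP3145b1.RD Pool.Agent.MP3145b1.RT
  Pool.Agent.MP3145b1.UM

private theorem LKk_surj {N : ℕ} (T : Finset ℕ) (hT : T ⊆ range N) :
    ∃ S : Finset (Fin N), S.map Fin.valEmbedding = T := by
  refine ⟨univ.filter (fun j : Fin N => j.val ∈ T), ?_⟩
  ext j
  simp only [Finset.mem_map, Finset.mem_filter, Finset.mem_univ, true_and, Fin.valEmbedding_apply]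
  constructor
  · rintro ⟨i, hi, rfl⟩
    exact hi
  · intro hj
    exact ⟨⟨j, Finset.mem_range.1 (hT hj)⟩, hj, rfl⟩

private theorem LKk_sum (N : ℕ) (g : Finset ℕ → ℝ) :
    ∑ T ∈ (range N).powerset, g T = ∑ S : Finset (Fin N), g (S.map Fin.valEmbedding) := by
  symm
  refine Finset.sum_bij (fun S _ => S.map Fin.valEmbedding) ?_ ?_ ?_ ?_
  · intro S _
    rw [Finset.mem_powerset]
    intro j hj
    obtain ⟨i, _, rfl⟩ := Finset.mem_map.1 hj
    exact Finset.mem_range.2 i.2
  · intro S _ S' _ h
    exact Finset.map_injective _ h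
  · intro T hT
    obtain ⟨S, hS⟩ := LKk_surj T (Finset.mem_powerset.1 hT)
    exact ⟨S, Finset.mem_univ _, hS⟩
  · intro S _
    rfl

private theorem LKk_vi (i : ℕ) : vi hf i = 1 := by
  unfold vi hf
  norm_num

private theorem LKk_wt (T : Finset ℕ) : wt hf T = 1 := by
  rw [wt_eq]
  exact Finset.prod_eq_one fun i _ => LKk_vi i

private theorem LKk_hf (i : ℕ) : 0 ≤ hf i ∧ hf i ≤ 1 := by
  unfold hf
  norm_num

/-- the influences -/
private theorem LKk_QQ (h3 : S_LTr) {N : ℕ} (f : (Fin N → Bool) → ℝ) (i : Fin N) :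
    QQ tw hf (range N) (fun y => f (xb N y)) 0 i.val = Qf f i := by
  have hi : i.val ∈ range N := Finset.mem_range.2 i.2
  have hJ : insert i.val ((range N).erase i.val) = range N := Finset.insert_erase hi
  have e1 := LKk_sum N (fun T => if i.val ∈ T then
    Co tw hf (range N) T (fun y => f (xb N y)) 0 ^ 2 else 0)
  have e2 : ∑ S : Finset (Fin N), (if i.val ∈ S.map Fin.valEmbedding then
      Co tw hf (range N) (S.map Fin.valEmbedding) (fun y => f (xb N y)) 0 ^ 2 else 0) = Qf f i := by
    unfold Qf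
    rw [Finset.sum_filter]
    refine Finset.sum_congr rfl fun S _ => ?_
    have h : i.val ∈ S.map Fin.valEmbedding ↔ i ∈ S := by
      rw [Finset.mem_map]
      constructor
      · rintro ⟨j, hj, hji⟩
        have : j = i := Fin.ext hji
        exact this ▸ hj
      · intro h
        exact ⟨i, h, rfl⟩
    rw [← h3 N f S]
    by_cases h' : i ∈ S
    · rw [if_pos (h.2 h'), if_pos h']
    · rw [if_neg (fun h'' => h' (h.1 h'')), if_neg h']
  have e3 : ∑ T ∈ (range N).powerset, (if i.val ∈ T then
      Co tw hf (range N) T (fun y => f (xb N y)) 0 ^ 2 else 0) =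
      QQ tw hf (range N) (fun y => f (xb N y)) 0 i.val := by
    have h4 : ∑ T ∈ (insert i.val ((range N).erase i.val)).powerset, (if i.val ∈ T then
        Co tw hf (range N) T (fun y => f (xb N y)) 0 ^ 2 else 0) =
        QQ tw hf (range N) (fun y => f (xb N y)) 0 i.val := by
      rw [Finset.sum_powerset_insert (Finset.notMem_erase _ _)]
      have h5 : ∑ T ∈ ((range N).erase i.val).powerset, (if i.val ∈ T then
          Co tw hf (range N) T (fun y => f (xb N y)) 0 ^ 2 else 0) = 0 := by
        refine Finset.sum_eq_zero fun T hT => ?_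
        exact if_neg fun h => Finset.notMem_erase _ _ (Finset.mem_powerset.1 hT h)
      rw [h5, zero_add]
      unfold QQ
      refine Finset.sum_congr rfl fun T _ => ?_
      rw [if_pos (Finset.mem_insert_self _ _), LKk_wt, one_mul]
    rw [hJ] at h4
    exact h4
  rw [← e3, e1, e2]

/-- A large influence. -/
theorem rLKk (h1 : S_ULg) (h2 : S_UAv) (h3 : S_LTr) : S_LKk := by
  classical
  intro N f hval hV
  have hpar : ∑ S : Finset (Fin N), coeff f S ^ 2 = 1 := by
    rw [Q.parseval]
    have h : (fun x => f x ^ 2) = fun _ : Fin N → Bool => (1 : ℝ) := by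
      funext x
      rcases hval x with h | h <;> rw [h] <;> norm_num
    rw [h, Q.mean_const]
  set c : Finset ℕ → ℝ := fun T => Co tw hf (range N) T (fun y => f (xb N y)) 0 with hc
  have hcS : ∀ S : Finset (Fin N), c (S.map Fin.valEmbedding) = coeff f S := fun S => (h3 N f S).symm
  have hc0 : c ∅ = coeff f ∅ := by
    have h := hcS ∅
    rwa [Finset.map_empty] at h
  have hem : (∅ : Finset ℕ) ∈ (range N).powerset := Finset.empty_mem_powerset _
  -- the two sums
  have hs1 : ∑ T ∈ (range N).powerset.erase ∅, wt hf T * c T ^ 2 = 1 - coeff f ∅ ^ 2 := by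
    rw [Finset.sum_erase_eq_sub hem, LKk_sum N (fun T => wt hf T * c T ^ 2), LKk_wt, one_mul, hc0]
    congr 1
    rw [← hpar]
    exact Finset.sum_congr rfl fun S _ => by rw [LKk_wt, one_mul, hcS]
  have hs2 : ∑ T ∈ (range N).powerset.erase ∅, ((T.card : ℝ) - 1) * (wt hf T * c T ^ 2) =
      influence f - (1 - coeff f ∅ ^ 2) := by
    rw [Finset.sum_erase_eq_sub hem, LKk_sum N (fun T => ((T.card : ℝ) - 1) * (wt hf T * c T ^ 2)),
      LKk_wt, one_mul, hc0]
    have h : ∑ S : Finset (Fin N), (((S.map Fin.valEmbedding).card : ℝ) - 1) *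
        (wt hf (S.map Fin.valEmbedding) * c (S.map Fin.valEmbedding) ^ 2) = influence f - 1 := by
      unfold influence
      conv_rhs => rw [← hpar]
      rw [← Finset.sum_sub_distrib]
      exact Finset.sum_congr rfl fun S _ => by
        rw [LKk_wt, one_mul, hcS, Finset.card_map]
        ring
    rw [h, Finset.card_empty]
    push_cast
    ring
  -- a choice of elements
  set ι : Finset ℕ → ℕ := fun T => if h : T.Nonempty then h.choose else 0 with hι
  have hιT : ∀ T ∈ (range N).powerset.erase ∅, ι T ∈ T := by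
    intro T hT
    have hne : T.Nonempty := Finset.nonempty_iff_ne_empty.2 (Finset.mem_erase.1 hT).1
    simp only [hι, dif_pos hne]
    exact hne.choose_spec
  have hmain := h1 tw hf (range N) (fun y => f (xb N y)) 0 ι LKk_hf (fun y => hval _) hιT
  have hmid : ∑ T ∈ (range N).powerset.erase ∅,
      wt hf T * Co tw hf (range N) T (fun y => f (xb N y)) 0 ^ 2 *
        (∑ j ∈ T.erase (ι T), 2 * Real.log (1 / vi hf j)) = 0 := by
    refine Finset.sum_eq_zero fun T _ => ?_
    have h : ∑ j ∈ T.erase (ι T), 2 * Real.log (1 / vi hf j) = 0 := by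
      refine Finset.sum_eq_zero fun j _ => ?_
      rw [LKk_vi, div_one, Real.log_one, mul_zero]
    rw [h, mul_zero]
  rw [hmid, zero_add] at hmain
  have hmain' : ∑ T ∈ (range N).powerset.erase ∅, wt hf T * c T ^ 2 *
      (2 * Real.log (1 / QQ tw hf (range N) (fun y => f (xb N y)) 0 (ι T))) ≤
      10 * (influence f - (1 - coeff f ∅ ^ 2)) := by
    rw [← hs2]
    exact hmain
  obtain ⟨T1, hT1, hpos, hle⟩ := h2 ((range N).powerset.erase ∅) (fun T => wt hf T * c T ^ 2)
    (fun T => 2 * Real.log (1 / QQ tw hf (range N) (fun y => f (xb N y)) 0 (ι T)))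
    (10 * (influence f - (1 - coeff f ∅ ^ 2)))
    (fun T _ => mul_nonneg (by rw [LKk_wt]; norm_num) (sq_nonneg _)) (by rw [hs1]; exact hV) hmain'
  rw [hs1] at hle
  have hT1' : T1 ⊆ range N := Finset.mem_powerset.1 (Finset.mem_erase.1 hT1).2
  obtain ⟨S1, hS1⟩ := LKk_surj T1 hT1'
  have hi1 : ι T1 ∈ T1 := hιT T1 hT1
  rw [← hS1] at hi1
  obtain ⟨i, hiS, hival⟩ := Finset.mem_map.1 hi1
  have hival' : i.val = ι T1 := by
    rw [hS1] at hival
    exact hival
  refine ⟨i, ?_, ?_⟩
  · have hp : 0 < coeff f S1 ^ 2 := by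
      have h := hpos
      simp only [LKk_wt, one_mul] at h
      rw [← hS1, hcS] at h
      exact h
    unfold Qf
    exact lt_of_lt_of_le hp (Finset.single_le_sum (f := fun S : Finset (Fin N) => coeff f S ^ 2)
      (fun S _ => sq_nonneg _) (Finset.mem_filter.2 ⟨Finset.mem_univ _, hiS⟩))
  · have hle' : (1 - coeff f ∅ ^ 2) *
        (2 * Real.log (1 / QQ tw hf (range N) (fun y => f (xb N y)) 0 (ι T1))) ≤
        10 * (influence f - (1 - coeff f ∅ ^ 2)) := hle
    rw [← hival', LKk_QQ h3 f i] at hle'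
    linarith

end Pool.Agent.MP3145b1.LD
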