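import Pool.Agent.Lib.MP_3145b1_co.LD.Spec

set_option autoImplicit false

namespace Pool.Agent.MP3145b1.LD

open Finset Pool.Agent.MP3145b1 Pool.Agent.MP3145b1.RC Pool.Agent.MP3145b1.RD Pool.Agent.MP3145b1.RT Pool.Agent.MP3145b1.UM

private theorem LLg_pars {N : ℕ} (f : (Fin N → Bool) → ℝ) (hf : ∀ x, f x = 1 ∨ f x = -1) :
    ∑ S : Finset (Fin N), coeff f S ^ 2 = 1 := by
  rw [Q.parseval]
  have h : (fun x => f x ^ 2) = fun _ => (1 : ℝ) := by
    funext x
    rcases hf x with h | h <;> rw [h] <;> norm_num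
  rw [h, Q.mean_const]

private theorem LLg_V {N : ℕ} (f : (Fin N → Bool) → ℝ) (hf : ∀ x, f x = 1 ∨ f x = -1) :
    1 - coeff f ∅ ^ 2 = ∑ S ∈ univ.filter (fun S : Finset (Fin N) => S ≠ ∅), coeff f S ^ 2 := by
  have h := LLg_pars f hf
  rw [← Finset.sum_filter_add_sum_filter_not univ (fun S : Finset (Fin N) => S ≠ ∅)] at h
  have h2 : univ.filter (fun S : Finset (Fin N) => ¬ S ≠ ∅) = {∅} := by
    ext S
    simp
  rw [h2, sum_singleton] at h
  linarith

private theorem LLg_w {N d : ℕ} (f : (Fin N → Bool) → ℝ) (hf : ∀ x, f x = 1 ∨ f x = -1) :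
    Wd f d ≤ 1 - coeff f ∅ ^ 2 := by
  rw [LLg_V f hf]
  unfold Wd
  refine Finset.sum_le_sum_of_subset_of_nonneg ?_ (fun S _ _ => sq_nonneg _)
  intro S hS
  simp only [mem_filter, mem_univ, true_and] at hS ⊢
  exact hS.1

private theorem LLg_I {N : ℕ} (f : (Fin N → Bool) → ℝ) (hf : ∀ x, f x = 1 ∨ f x = -1) :
    1 - coeff f ∅ ^ 2 ≤ influence f := by
  rw [LLg_V f hf]
  unfold influence
  calc ∑ S ∈ univ.filter (fun S : Finset (Fin N) => S ≠ ∅), coeff f S ^ 2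
      ≤ ∑ S ∈ univ.filter (fun S : Finset (Fin N) => S ≠ ∅), (S.card : ℝ) * coeff f S ^ 2 := by
        refine Finset.sum_le_sum fun S hS => ?_
        simp only [mem_filter, mem_univ, true_and] at hS
        have h1 : (1 : ℝ) ≤ (S.card : ℝ) := by
          exact_mod_cast Finset.card_pos.mpr (Finset.nonempty_iff_ne_empty.mpr hS)
        have h2 := sq_nonneg (coeff f S)
        nlinarith
    _ ≤ ∑ S : Finset (Fin N), (S.card : ℝ) * coeff f S ^ 2 :=
        Finset.sum_le_sum_of_subset_of_nonneg (Finset.filter_subset _ _)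
          (fun S _ _ => mul_nonneg (Nat.cast_nonneg _) (sq_nonneg _))

private theorem LLg_real (V w I c : ℝ) (d : ℕ) (hd : 1 ≤ d) (hw : 0 < w) (hwV : w ≤ V) (hV1 : V ≤ 1)
    (hVI : V ≤ I) (hc : 0 < c) (hm : w / 2 ≤ (1 + 4 * 16 ^ d * I ^ 3 / w ^ 2) ^ d * c)
    (hi : V * Real.log (1 / V) ≤ 5 * (I - V)) :
    V * Real.log (1 / c) ≤ 14 * d ^ 2 * I + 3 * d * (V * Real.log (V / w)) := by
  have hV : 0 < V := lt_of_lt_of_le hw hwV
  have hI : 0 < I := lt_of_lt_of_le hV hVI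
  have hd' : (1 : ℝ) ≤ d := by exact_mod_cast hd
  have hX0 : 0 < 1 + 4 * 16 ^ d * I ^ 3 / w ^ 2 := by positivity
  have h1 : Real.log (1 / c) ≤ Real.log (2 / w) + d * Real.log (1 + 4 * 16 ^ d * I ^ 3 / w ^ 2) := by
    have h2 := Real.log_le_log (by positivity) hm
    rw [Real.log_mul (by positivity) (by positivity), Real.log_pow,
      Real.log_div hw.ne' two_ne_zero] at h2
    rw [Real.log_div one_ne_zero hc.ne', Real.log_one, Real.log_div two_ne_zero hw.ne']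
    linarith
  have hbd : 1 + 4 * 16 ^ d * I ^ 3 / w ^ 2 ≤ 8 * 16 ^ d * (I / V) ^ 3 * (V / w) ^ 2 := by
    have e1 : 8 * 16 ^ d * (I / V) ^ 3 * (V / w) ^ 2 = 8 * (16 ^ d * (I ^ 3 / w ^ 2 / V)) := by
      field_simp
    have e0 : 0 ≤ I ^ 3 / w ^ 2 := by positivity
    have e2 : I ^ 3 / w ^ 2 ≤ I ^ 3 / w ^ 2 / V := by
      rw [le_div_iff₀ hV]
      nlinarith
    have e4 : (1 : ℝ) ≤ I ^ 3 / w ^ 2 / V := by
      rw [le_div_iff₀ hV, one_mul, le_div_iff₀ (by positivity)]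
      calc V * w ^ 2 ≤ V * V ^ 2 := by gcongr
        _ = V ^ 3 := by ring
        _ ≤ I ^ 3 := by gcongr
    have e5 : (1 : ℝ) ≤ 16 ^ d := one_le_pow₀ (by norm_num)
    have e6 : (1 : ℝ) ≤ 16 ^ d * (I ^ 3 / w ^ 2 / V) := by nlinarith
    have e7 : (16 : ℝ) ^ d * (I ^ 3 / w ^ 2) ≤ 16 ^ d * (I ^ 3 / w ^ 2 / V) := by gcongr
    have e8 : 4 * 16 ^ d * I ^ 3 / w ^ 2 = 4 * (16 ^ d * (I ^ 3 / w ^ 2)) := by ring
    rw [e1, e8]
    linarith
  have h3 : Real.log (1 + 4 * 16 ^ d * I ^ 3 / w ^ 2) ≤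
      3 * Real.log 2 + d * (4 * Real.log 2) + 3 * (I / V - 1) + 2 * Real.log (V / w) := by
    have h4 := Real.log_le_log hX0 hbd
    rw [Real.log_mul (by positivity) (by positivity), Real.log_mul (by positivity) (by positivity),
      Real.log_mul (by positivity) (by positivity), Real.log_pow, Real.log_pow, Real.log_pow,
      show (8 : ℝ) = 2 ^ 3 by norm_num, show (16 : ℝ) = 2 ^ 4 by norm_num, Real.log_pow,
      Real.log_pow] at h4
    have h5 : Real.log (I / V) ≤ I / V - 1 := Real.log_le_sub_one_of_pos (by positivity)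
    push_cast at h4
    linarith
  have h6 : Real.log (2 / w) = Real.log 2 + Real.log (1 / V) + Real.log (V / w) := by
    rw [Real.log_div two_ne_zero hw.ne', Real.log_div one_ne_zero hV.ne', Real.log_one,
      Real.log_div hV.ne' hw.ne']
    ring
  have hl2 := Real.log_two_lt_d9
  have hl20 : 0 ≤ Real.log 2 := Real.log_nonneg (by norm_num)
  have hr : 0 ≤ V * Real.log (V / w) :=
    mul_nonneg hV.le (Real.log_nonneg (by rw [le_div_iff₀ hw]; linarith))
  have hd0 : (0 : ℝ) ≤ d := by linarith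
  have h7 : V * Real.log (1 + 4 * 16 ^ d * I ^ 3 / w ^ 2) ≤
      2.1 * V + 2.8 * (d * V) + 3 * (I - V) + 2 * (V * Real.log (V / w)) := by
    have h8 := mul_le_mul_of_nonneg_left h3 hV.le
    have h9 : V * (3 * Real.log 2 + d * (4 * Real.log 2) + 3 * (I / V - 1) + 2 * Real.log (V / w)) =
        3 * (V * Real.log 2) + 4 * (d * V * Real.log 2) + 3 * (I - V) + 2 * (V * Real.log (V / w)) := by
      field_simp
    rw [h9] at h8
    have h10 : V * Real.log 2 ≤ V * 0.7 := mul_le_mul_of_nonneg_left (by linarith) hV.le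
    have h11 : d * V * Real.log 2 ≤ d * V * 0.7 :=
      mul_le_mul_of_nonneg_left (by linarith) (mul_nonneg hd0 hV.le)
    linarith
  have h12 : V * Real.log (2 / w) ≤ 0.7 * V + 5 * (I - V) + V * Real.log (V / w) := by
    rw [h6]
    have h10 : V * Real.log 2 ≤ V * 0.7 := mul_le_mul_of_nonneg_left (by linarith) hV.le
    linarith
  have h13 := mul_le_mul_of_nonneg_left h1 hV.le
  have h14 := mul_le_mul_of_nonneg_left h7 hd0
  have a1 : (d : ℝ) * I ≤ d ^ 2 * I := by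
    have : (d : ℝ) ≤ d ^ 2 := by nlinarith
    exact mul_le_mul_of_nonneg_right this hI.le
  have a2 : I ≤ d * I := by nlinarith
  have a3 : (d : ℝ) ^ 2 * V ≤ d ^ 2 * I := mul_le_mul_of_nonneg_left hVI (sq_nonneg _)
  have a4 : (d : ℝ) * V ≤ d * I := mul_le_mul_of_nonneg_left hVI hd0
  have a5 : V * Real.log (V / w) ≤ d * (V * Real.log (V / w)) := by nlinarith
  have a6 : 0 ≤ (d : ℝ) * V := mul_nonneg hd0 hV.le
  have h15 : (d : ℝ) * (2.1 * V + 2.8 * (d * V) + 3 * (I - V) + 2 * (V * Real.log (V / w))) =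
      2.1 * (d * V) + 2.8 * (d ^ 2 * V) + 3 * (d * I) - 3 * (d * V) +
        2 * (d * (V * Real.log (V / w))) := by ring
  rw [h15] at h14
  have h16 : V * (Real.log (2 / w) + d * Real.log (1 + 4 * 16 ^ d * I ^ 3 / w ^ 2)) =
      V * Real.log (2 / w) + d * (V * Real.log (1 + 4 * 16 ^ d * I ^ 3 / w ^ 2)) := by ring
  rw [h16] at h13
  have h17 : 14 * (d : ℝ) ^ 2 * I = 14 * (d ^ 2 * I) := by ring
  have h18 : 3 * (d : ℝ) * (V * Real.log (V / w)) = 3 * (d * (V * Real.log (V / w))) := by ring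
  rw [h17, h18]
  linarith

theorem rLLg (h1 : S_LMx) (h2 : S_LIs) : S_LLg := by
  intro N d f hf hd hw
  obtain ⟨S, hS, -, hm⟩ := h1 N d f hf hd hw
  have hwV := LLg_w (d := d) f hf
  have hVI := LLg_I f hf
  have hV : 0 < 1 - coeff f ∅ ^ 2 := lt_of_lt_of_le hw hwV
  have hV1 : 1 - coeff f ∅ ^ 2 ≤ 1 := by
    have := sq_nonneg (coeff f ∅)
    linarith
  have hc : coeff f S ≠ 0 := by
    intro h0
    rw [h0] at hm
    norm_num at hm
    linarith
  refine ⟨S, hS, hc, ?_⟩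
  exact LLg_real _ _ _ _ d hd hw hwV hV1 hVI (by positivity) hm (h2 N f hf hV)

end Pool.Agent.MP3145b1.LD
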