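import Pool.Agent.Lib.MP_3145b1_co.LD.Spec

/-!
# MP_3145b1_co, project LD, module LMx: a large coefficient of low degree
-/

set_option autoImplicit false

namespace Pool.Agent.MP3145b1.LD

open Finset Pool.Agent.MP3145b1 Pool.Agent.MP3145b1.RC Pool.Agent.MP3145b1.RD Pool.Agent.MP3145b1.RT Pool.Agent.MP3145b1.UM

private theorem LMx_inf {N : ℕ} (f : (Fin N → Bool) → ℝ) : influence f = ∑ i, Qf f i := by
  unfold influence Qf
  have h1 : ∀ i : Fin N, ∑ S ∈ univ.filter (fun S : Finset (Fin N) => i ∈ S), coeff f S ^ 2 =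
      ∑ S : Finset (Fin N), if i ∈ S then coeff f S ^ 2 else 0 := fun i => Finset.sum_filter _ _
  rw [Finset.sum_congr rfl fun i _ => h1 i, Finset.sum_comm]
  refine Finset.sum_congr rfl fun S _ => ?_
  rw [← Finset.sum_filter, Finset.sum_const, nsmul_eq_mul]
  congr 2
  simp

private theorem LMx_Qf_nonneg {N : ℕ} (f : (Fin N → Bool) → ℝ) (i : Fin N) : 0 ≤ Qf f i :=
  Finset.sum_nonneg fun _ _ => sq_nonneg _

/-- the low-degree weight at a variable -/
private theorem LMx_var (h1 : S_LIn) {N : ℕ} (d : ℕ) (f : (Fin N → Bool) → ℝ)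
    (hf : ∀ x, f x = 1 ∨ f x = -1) (i : Fin N) :
    ∑ S ∈ univ.filter (fun S : Finset (Fin N) => i ∈ S ∧ S.card ≤ d), coeff f S ^ 2 ≤
      4 ^ d * (Qf f i * Real.sqrt (Qf f i)) := by
  refine le_trans ?_ (mul_le_mul_of_nonneg_left (h1 N f i hf) (by positivity))
  rw [Finset.mul_sum]
  refine le_trans ?_ (Finset.sum_le_sum_of_subset_of_nonneg (s := univ.filter
    (fun S : Finset (Fin N) => i ∈ S ∧ S.card ≤ d)) ?_ ?_)
  · refine Finset.sum_le_sum fun S hS => ?_
    obtain ⟨-, hi, hc⟩ := Finset.mem_filter.1 hS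
    have h2 : (1 : ℝ) ≤ 4 ^ d * (1 / 4) ^ (S.card - 1) := by
      have h3 : (4 : ℝ) ^ d = 4 ^ (d - (S.card - 1)) * 4 ^ (S.card - 1) := by
        rw [← pow_add]
        congr 1
        omega
      have h4 : (4 : ℝ) ^ (S.card - 1) * (1 / 4) ^ (S.card - 1) = 1 := by
        rw [← mul_pow]
        norm_num
      rw [h3, mul_assoc, h4, mul_one]
      exact one_le_pow₀ (by norm_num)
    calc coeff f S ^ 2 = 1 * coeff f S ^ 2 := (one_mul _).symm
      _ ≤ (4 ^ d * (1 / 4) ^ (S.card - 1)) * coeff f S ^ 2 :=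
        mul_le_mul_of_nonneg_right h2 (sq_nonneg _)
      _ = 4 ^ d * ((1 / 4) ^ (S.card - 1) * coeff f S ^ 2) := by ring
  · intro S hS
    obtain ⟨-, hi, hc⟩ := Finset.mem_filter.1 hS
    exact Finset.mem_filter.2 ⟨Finset.mem_univ _, hi⟩
  · intro S _ _
    positivity

/-- **LMx** (a large coefficient of low degree) -/
theorem rLMx (h1 : S_LIn) (h2 : S_LCt) : S_LMx := by
  intro N d f hf hd hw
  have hI : influence f = ∑ i, Qf f i := LMx_inf f
  set w := Wd f d with hwdef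
  have hwI : w ≤ influence f := by
    rw [hwdef]
    unfold Wd influence
    refine le_trans (Finset.sum_le_sum fun S hS => ?_) (Finset.sum_le_sum_of_subset_of_nonneg
      (Finset.subset_univ (univ.filter (fun S : Finset (Fin N) => S ≠ ∅ ∧ S.card ≤ d))) ?_)
    · obtain ⟨-, hne, -⟩ := Finset.mem_filter.1 hS
      have h3 : (1 : ℝ) ≤ (S.card : ℝ) := by
        have := Finset.card_pos.2 (Finset.nonempty_iff_ne_empty.2 hne)
        exact_mod_cast this
      nlinarith [sq_nonneg (coeff f S)]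
    · intro S _ _
      positivity
  have hIpos : 0 < influence f := lt_of_lt_of_le hw hwI
  set I := influence f with hIdef
  set t : ℝ := w / (2 * 4 ^ d * I) with ht
  have htpos : 0 < t := by positivity
  set L : Finset (Fin N) := univ.filter (fun i => t ^ 2 ≤ Qf f i) with hL
  set B : ℝ := 4 * 16 ^ d * I ^ 3 / w ^ 2 with hB
  have hBt : I / t ^ 2 = B := by
    rw [hB, ht]
    have h16 : (16 : ℝ) ^ d = 4 ^ d * 4 ^ d := by
      rw [← mul_pow]
      norm_num
    rw [h16]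
    have h4 : (4 : ℝ) ^ d ≠ 0 := by positivity
    have hI0 : I ≠ 0 := hIpos.ne'
    have hw0 : w ≠ 0 := hw.ne'
    field_simp
    ring
  have hLB : (L.card : ℝ) ≤ B := by
    rw [← hBt, le_div_iff₀ (by positivity)]
    calc (L.card : ℝ) * t ^ 2 = ∑ i ∈ L, t ^ 2 := by rw [Finset.sum_const, nsmul_eq_mul]
      _ ≤ ∑ i ∈ L, Qf f i := Finset.sum_le_sum fun i hi => (Finset.mem_filter.1 hi).2
      _ ≤ ∑ i, Qf f i := Finset.sum_le_sum_of_subset_of_nonneg (Finset.subset_univ _)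
          (fun i _ _ => LMx_Qf_nonneg f i)
      _ = I := hI.symm
  -- the sets which are not contained in `L`
  have hout : ∑ S ∈ univ.filter (fun S : Finset (Fin N) => (S ≠ ∅ ∧ S.card ≤ d) ∧ ¬ S ⊆ L),
      coeff f S ^ 2 ≤ w / 2 := by
    have h3 : ∑ S ∈ univ.filter (fun S : Finset (Fin N) => (S ≠ ∅ ∧ S.card ≤ d) ∧ ¬ S ⊆ L),
        coeff f S ^ 2 ≤ ∑ i ∈ univ \ L,
          ∑ S ∈ univ.filter (fun S : Finset (Fin N) => i ∈ S ∧ S.card ≤ d), coeff f S ^ 2 := by
      have h4 : ∀ i : Fin N, ∑ S ∈ univ.filter (fun S : Finset (Fin N) => i ∈ S ∧ S.card ≤ d),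
          coeff f S ^ 2 = ∑ S : Finset (Fin N), if i ∈ S ∧ S.card ≤ d then coeff f S ^ 2 else 0 :=
        fun i => Finset.sum_filter _ _
      rw [Finset.sum_congr rfl fun i _ => h4 i, Finset.sum_comm, Finset.sum_filter]
      refine Finset.sum_le_sum fun S _ => ?_
      split_ifs with hS
      · obtain ⟨⟨hne, hc⟩, hsub⟩ := hS
        obtain ⟨i, hi, hiL⟩ := Finset.not_subset.1 hsub
        refine le_trans ?_ (Finset.single_le_sum (f := fun i : Fin N =>
          if i ∈ S ∧ S.card ≤ d then coeff f S ^ 2 else 0) (fun j _ => ?_)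
          (Finset.mem_sdiff.2 ⟨Finset.mem_univ i, hiL⟩))
        · show _ ≤ if i ∈ S ∧ S.card ≤ d then coeff f S ^ 2 else 0
          rw [if_pos ⟨hi, hc⟩]
        · show 0 ≤ if j ∈ S ∧ S.card ≤ d then coeff f S ^ 2 else 0
          split_ifs
          · exact sq_nonneg _
          · exact le_refl _
      · refine Finset.sum_nonneg fun j _ => ?_
        split_ifs
        · exact sq_nonneg _
        · exact le_refl _
    have h5 : ∀ i ∈ univ \ L,
        ∑ S ∈ univ.filter (fun S : Finset (Fin N) => i ∈ S ∧ S.card ≤ d), coeff f S ^ 2 ≤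
          4 ^ d * t * Qf f i := by
      intro i hi
      have hiL : ¬ t ^ 2 ≤ Qf f i := by
        intro h
        exact (Finset.mem_sdiff.1 hi).2 (Finset.mem_filter.2 ⟨Finset.mem_univ i, h⟩)
      have hs : Real.sqrt (Qf f i) ≤ t := by
        rw [Real.sqrt_le_left htpos.le]
        exact (not_le.1 hiL).le
      calc ∑ S ∈ univ.filter (fun S : Finset (Fin N) => i ∈ S ∧ S.card ≤ d), coeff f S ^ 2 ≤
            4 ^ d * (Qf f i * Real.sqrt (Qf f i)) := LMx_var h1 d f hf i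
        _ ≤ 4 ^ d * (Qf f i * t) := mul_le_mul_of_nonneg_left
            (mul_le_mul_of_nonneg_left hs (LMx_Qf_nonneg f i)) (by positivity)
        _ = 4 ^ d * t * Qf f i := by ring
    calc _ ≤ ∑ i ∈ univ \ L,
          ∑ S ∈ univ.filter (fun S : Finset (Fin N) => i ∈ S ∧ S.card ≤ d), coeff f S ^ 2 := h3
      _ ≤ ∑ i ∈ univ \ L, 4 ^ d * t * Qf f i := Finset.sum_le_sum h5
      _ ≤ ∑ i, 4 ^ d * t * Qf f i := Finset.sum_le_sum_of_subset_of_nonneg
          (Finset.subset_univ _) (fun i _ _ => mul_nonneg (by positivity) (LMx_Qf_nonneg f i))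
      _ = 4 ^ d * t * I := by rw [← Finset.mul_sum, ← hI]
      _ = w / 2 := by
          rw [ht]
          have h4 : (4 : ℝ) ^ d ≠ 0 := by positivity
          have hI0 : I ≠ 0 := hIpos.ne'
          field_simp
  set A : Finset (Finset (Fin N)) :=
    univ.filter (fun S : Finset (Fin N) => (S ≠ ∅ ∧ S.card ≤ d) ∧ S ⊆ L) with hA
  have hin : w / 2 ≤ ∑ S ∈ A, coeff f S ^ 2 := by
    have h3 : w = ∑ S ∈ A, coeff f S ^ 2 +
        ∑ S ∈ univ.filter (fun S : Finset (Fin N) => (S ≠ ∅ ∧ S.card ≤ d) ∧ ¬ S ⊆ L),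
          coeff f S ^ 2 := by
      rw [hwdef, hA]
      unfold Wd
      rw [← Finset.sum_filter_add_sum_filter_not (univ.filter
        (fun S : Finset (Fin N) => S ≠ ∅ ∧ S.card ≤ d)) (fun S => S ⊆ L),
        Finset.filter_filter, Finset.filter_filter]
    linarith
  have hAne : A.Nonempty := by
    by_contra h
    rw [Finset.not_nonempty_iff_eq_empty] at h
    rw [h, Finset.sum_empty] at hin
    linarith
  obtain ⟨S, hS, hmax⟩ := Finset.exists_max_image A (fun S => coeff f S ^ 2) hAne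
  obtain ⟨-, ⟨hne, hc⟩, -⟩ := Finset.mem_filter.1 hS
  refine ⟨S, hne, hc, ?_⟩
  have hcard : (A.card : ℝ) ≤ (1 + B) ^ d := by
    have h3 : A.card ≤ (1 + L.card) ^ d := by
      refine le_trans (Finset.card_le_card ?_) (h2 N d L)
      intro T hT
      obtain ⟨-, ⟨-, hc'⟩, hs'⟩ := Finset.mem_filter.1 hT
      exact Finset.mem_filter.2 ⟨Finset.mem_univ _, hs', hc'⟩
    have h4 : (A.card : ℝ) ≤ (1 + (L.card : ℝ)) ^ d := by exact_mod_cast h3
    refine le_trans h4 (pow_le_pow_left₀ (by positivity) ?_ d)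
    linarith
  calc w / 2 ≤ ∑ S ∈ A, coeff f S ^ 2 := hin
    _ ≤ ∑ _T ∈ A, coeff f S ^ 2 := Finset.sum_le_sum fun T hT => hmax T hT
    _ = (A.card : ℝ) * coeff f S ^ 2 := by rw [Finset.sum_const, nsmul_eq_mul]
    _ ≤ (1 + B) ^ d * coeff f S ^ 2 := mul_le_mul_of_nonneg_right hcard (sq_nonneg _)

end Pool.Agent.MP3145b1.LD
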