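import Pool.Agent.Lib.MP_3145b1_co.LD.Spec

set_option autoImplicit false

namespace Pool.Agent.MP3145b1.LD

open Finset Pool.Agent.MP3145b1 Pool.Agent.MP3145b1.RC Pool.Agent.MP3145b1.RD Pool.Agent.MP3145b1.RT Pool.Agent.MP3145b1.UM

private theorem LPf_zero {N : ℕ} (f : (Fin N → Bool) → ℝ) : Wd f 0 = 0 := by
  unfold Wd
  refine Finset.sum_eq_zero fun S hS => ?_
  obtain ⟨h1, h2⟩ := (Finset.mem_filter.1 hS).2
  exact absurd (Finset.card_eq_zero.1 (Nat.le_zero.1 h2)) h1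

/-- the logarithm of `V / w` -/
private theorem LPf_log {V w : ℝ} {d : ℕ} (hV : 0 < V) (hw : 0 < w) (h : V ^ 2 / (4 * 16 ^ d) ≤ w) :
    Real.log (V / w) ≤ 1.4 + 2.78 * d + Real.log (1 / V) := by
  have h16 : (0 : ℝ) < 16 ^ d := by positivity
  have h1 : V / w ≤ 4 * 16 ^ d * (1 / V) := by
    rw [div_le_iff₀ hw]
    have h2 : V ^ 2 ≤ w * (4 * 16 ^ d) := (div_le_iff₀ (by positivity)).1 h
    have h3 : 4 * 16 ^ d * (1 / V) * w = w * (4 * 16 ^ d) / V := by ring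
    rw [h3, le_div_iff₀ hV]
    nlinarith
  have h2 : Real.log (V / w) ≤ Real.log (4 * 16 ^ d * (1 / V)) :=
    Real.log_le_log (by positivity) h1
  have h3 : Real.log (4 * 16 ^ d * (1 / V)) = Real.log 4 + d * Real.log 16 + Real.log (1 / V) := by
    rw [Real.log_mul (by positivity) (by positivity), Real.log_mul (by norm_num) (by positivity),
      Real.log_pow]
  have h4 : Real.log 4 = 2 * Real.log 2 := by
    rw [show (4 : ℝ) = 2 ^ 2 by norm_num, Real.log_pow]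
    norm_num
  have h5 : Real.log 16 = 4 * Real.log 2 := by
    rw [show (16 : ℝ) = 2 ^ 4 by norm_num, Real.log_pow]
    norm_num
  have h6 := Real.log_two_lt_d9
  have h7 : (0 : ℝ) ≤ d := Nat.cast_nonneg d
  rw [h3, h4, h5] at h2
  nlinarith

private theorem LPf_num {V I L l d B : ℝ} (hd : 1 ≤ d) (hV : 0 < V) (hVI : V ≤ I)
    (hL : L ≤ 1.4 + 2.78 * d + l) (hl : V * l ≤ 5 * (I - V))
    (hB : B ≤ 14 * d ^ 2 * I + 3 * d * (V * L)) : B ≤ 50 * d ^ 2 * I := by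
  have h1 : V * L ≤ V * (1.4 + 2.78 * d) + 5 * (I - V) := by nlinarith
  have h2 : V * (1.4 + 2.78 * d) ≤ I * (1.4 + 2.78 * d) := by nlinarith
  have h3 : V * L ≤ I * (6.4 + 2.78 * d) := by nlinarith
  have h4 : d * (V * L) ≤ d * (I * (6.4 + 2.78 * d)) := mul_le_mul_of_nonneg_left h3 (by linarith)
  have hI : 0 ≤ I := by linarith
  have h5 : d * I ≤ d ^ 2 * I := mul_le_mul_of_nonneg_right (by nlinarith) hI
  have h6 : 0 ≤ d ^ 2 * I := mul_nonneg (sq_nonneg d) hI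
  nlinarith

theorem rLPf (h1 : S_LLg) (h2 : S_LIs) (h3 : S_LPt) : S_LPf := by
  intro N d f g hf hg hfg hne hV
  have hw := h3 N d f g hf hg hfg hne
  have hV2 : 0 < (1 - coeff f ∅ ^ 2) ^ 2 / (4 * 16 ^ d) := by positivity
  have hwpos : 0 < Wd f d := lt_of_lt_of_le hV2 hw
  have hd : 1 ≤ d := by
    by_contra hd
    have hd0 : d = 0 := by omega
    subst hd0
    rw [LPf_zero] at hwpos
    exact lt_irrefl _ hwpos
  obtain ⟨S, hS, hc, hle⟩ := h1 N d f hf hd hwpos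
  have hls := h2 N f hf hV
  have hV1 : 1 - coeff f ∅ ^ 2 ≤ 1 := by linarith [sq_nonneg (coeff f ∅)]
  have hl0 : 0 ≤ Real.log (1 / (1 - coeff f ∅ ^ 2)) :=
    Real.log_nonneg ((one_le_div hV).2 hV1)
  have hVI : 1 - coeff f ∅ ^ 2 ≤ influence f := by
    have := mul_nonneg hV.le hl0
    linarith
  exact ⟨S, hS, hc, LPf_num (by exact_mod_cast hd) hV hVI (LPf_log hV hwpos hw) hls hle⟩

end Pool.Agent.MP3145b1.LD
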