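import Pool.Agent.Lib.MP_3145b1_co.LD.Spec

/-!
# MP_3145b1_co, project LD: transfer to the cube (binary encoding)
-/

set_option autoImplicit false

namespace Pool.Agent.MP3145b1.LD

open Finset Pool.Agent.MP3145b1 Pool.Agent.MP3145b1.RC Pool.Agent.MP3145b1.RD Pool.Agent.MP3145b1.RT Pool.Agent.MP3145b1.UM

private def LTr_P (N : ℕ) (i : ℕ) : Finset (Fin N) := if h : i < N then {⟨i, h⟩} else ∅

private noncomputable def LTr_u (N : ℕ) (i : ℕ) (x : Fin N → Bool) : ℝ :=
  if h : i < N then (if x ⟨i, h⟩ then -1 else 1) else 1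

private theorem LTr_var (N : ℕ) (a : Fin N) :
    coeff (fun x : Fin N → Bool => if x a then (-1 : ℝ) else 1) {a} = 1 ∧
    coeff (fun x : Fin N → Bool => if x a then (-1 : ℝ) else 1) ∅ = 0 := by
  set f : (Fin N → Bool) → ℝ := fun x => if x a then -1 else 1 with hf
  have hsg : ∀ x : Fin N → Bool, f x = sgn x {a} := by
    intro x
    simp [hf, sgn]
  have h1 : coeff f {a} = 1 := by
    rw [Q.coeff_mean]
    have : (fun x : Fin N → Bool => f x * sgn x {a}) = fun _ => (1 : ℝ) := by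
      funext x
      rw [hsg, ← pow_two, sgn_sq]
    rw [this, Q.mean_const]
  have hpar : ∑ S : Finset (Fin N), coeff f S ^ 2 = 1 := by
    rw [Q.parseval]
    have : (fun x : Fin N → Bool => f x ^ 2) = fun _ => (1 : ℝ) := by
      funext x
      rw [hsg, sgn_sq]
    rw [this, Q.mean_const]
  have h0 : ∀ S : Finset (Fin N), S ≠ {a} → coeff f S = 0 := by
    intro S hS
    have h2 : coeff f S ^ 2 ≤ 0 := by
      have h3 : coeff f S ^ 2 + coeff f {a} ^ 2 ≤ ∑ S : Finset (Fin N), coeff f S ^ 2 := by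
        rw [← Finset.sum_pair (f := fun S => coeff f S ^ 2) hS]
        exact Finset.sum_le_sum_of_subset_of_nonneg (Finset.subset_univ _)
          (fun _ _ _ => sq_nonneg _)
      rw [hpar, h1] at h3
      linarith
    exact pow_eq_zero_iff (two_ne_zero) |>.mp (le_antisymm h2 (sq_nonneg _))
  exact ⟨h1, h0 ∅ (fun h => (Finset.singleton_ne_empty a) h.symm)⟩

private theorem LTr_ueq (N i : ℕ) (h : i < N) :
    LTr_u N i = fun x : Fin N → Bool => if x ⟨i, h⟩ then (-1 : ℝ) else 1 := by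
  funext x
  unfold LTr_u
  rw [dif_pos h]

private theorem LTr_Peq (N i : ℕ) (h : i < N) : LTr_P N i = {⟨i, h⟩} := by
  unfold LTr_P
  rw [dif_pos h]

private theorem LTr_cp (N : ℕ) : Cp (LTr_P N) (LTr_u N) := by
  refine ⟨?_, ?_, ?_⟩
  · intro i j hij
    unfold LTr_P
    by_cases hi : i < N
    · by_cases hj : j < N
      · rw [dif_pos hi, dif_pos hj, Finset.disjoint_singleton]
        intro h
        exact hij (Fin.mk.inj h)
      · rw [dif_neg hj]
        exact Finset.disjoint_empty_right _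
    · rw [dif_neg hi]
      exact Finset.disjoint_empty_left _
  · intro i x y hxy
    unfold LTr_u
    by_cases hi : i < N
    · rw [dif_pos hi, dif_pos hi]
      have h := hxy ⟨i, hi⟩ (by
        rw [LTr_Peq N i hi]
        exact Finset.mem_singleton_self _)
      rw [h]
    · rw [dif_neg hi, dif_neg hi]
  · intro i x
    unfold LTr_u
    by_cases hi : i < N
    · rw [dif_pos hi]
      split_ifs
      · exact Or.inr rfl
      · exact Or.inl rfl
    · rw [dif_neg hi]
      exact Or.inl rfl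

private theorem LTr_pb (N i : ℕ) (h : i < N) : pb (LTr_u N) i = 1 / 2 := by
  unfold pb
  rw [LTr_ueq N i h, (LTr_var N ⟨i, h⟩).2]
  norm_num

private theorem LTr_sum {N : ℕ} (f : (Fin N → Bool) → ℝ) (x : Fin N → Bool) :
    f (xb N (0 + ∑ i ∈ range N, (if LTr_u N i x = -1 then tw i else 0))) = f x := by
  rw [← Finset.sum_filter]
  have e : (0 : ℝ) + ∑ i ∈ (range N).filter (fun i => LTr_u N i x = -1), tw i =
      ((∑ i ∈ (range N).filter (fun i => LTr_u N i x = -1), 2 ^ i : ℕ) : ℝ) := by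
    unfold tw
    push_cast
    rw [zero_add]
  have hxb : ∀ y : ℝ, xb N y = fun j : Fin N => decide (j.val ∈ ⌊y⌋₊.bitIndices.toFinset) :=
    fun _ => rfl
  rw [e, hxb, Nat.floor_natCast, Finset.toFinset_bitIndices_sum_two_pow]
  congr 1
  funext j
  have h1 : (j.val ∈ (range N).filter (fun i => LTr_u N i x = -1)) ↔ x j = true := by
    rw [Finset.mem_filter, Finset.mem_range, LTr_ueq N j.val j.isLt]
    constructor
    · rintro ⟨-, h⟩
      by_contra h'
      simp only [Fin.eta] at h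
      rw [if_neg h'] at h
      norm_num at h
    · intro h
      refine ⟨j.isLt, ?_⟩
      simp only [Fin.eta]
      rw [if_pos h]
  by_cases hx : x j = true
  · rw [hx]
    exact decide_eq_true (h1.2 hx)
  · rw [Bool.not_eq_true] at hx
    rw [hx]
    refine decide_eq_false fun h => ?_
    rw [h1.1 h] at hx
    exact absurd hx (by decide)

private theorem LTr_TT (N : ℕ) (S : Finset (Fin N)) :
    TT (LTr_P N) N S = S.map Fin.valEmbedding := by
  unfold TT
  ext j
  rw [Finset.mem_filter, Finset.mem_range, Finset.mem_map]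
  constructor
  · rintro ⟨hj, y, hy⟩
    rw [LTr_Peq N j hj, Finset.mem_inter, Finset.mem_singleton] at hy
    exact ⟨⟨j, hj⟩, hy.2 ▸ hy.1, rfl⟩
  · rintro ⟨a, ha, rfl⟩
    have haN : Fin.valEmbedding a < N := a.isLt
    refine ⟨haN, a, ?_⟩
    rw [LTr_Peq N _ haN, Finset.mem_inter, Finset.mem_singleton]
    exact ⟨ha, rfl⟩

private theorem LTr_Lp (N : ℕ) (S : Finset (Fin N)) :
    Lp (LTr_P N) N (fun i R => coeff (LTr_u N i) R) S = 1 := by
  unfold Lp
  have hsub : S ⊆ (range N).biUnion (LTr_P N) := by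
    intro a _
    rw [Finset.mem_biUnion]
    refine ⟨a.val, Finset.mem_range.2 a.isLt, ?_⟩
    rw [LTr_Peq N _ a.isLt]
    exact Finset.mem_singleton_self _
  rw [if_pos hsub]
  refine Finset.prod_eq_one fun i hi => ?_
  rw [LTr_TT, Finset.mem_map] at hi
  obtain ⟨a, ha, rfl⟩ := hi
  have haN : Fin.valEmbedding a < N := a.isLt
  have hI : S ∩ LTr_P N (Fin.valEmbedding a) = {a} := by
    rw [LTr_Peq N _ haN]
    ext b
    rw [Finset.mem_inter, Finset.mem_singleton, Finset.mem_singleton]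
    constructor
    · rintro ⟨-, h⟩
      exact h
    · rintro rfl
      exact ⟨ha, rfl⟩
  show coeff (LTr_u N (Fin.valEmbedding a)) (S ∩ LTr_P N (Fin.valEmbedding a)) = 1
  rw [hI, LTr_ueq N _ haN]
  exact (LTr_var N a).1

private theorem LTr_Av (a p q : ℕ → ℝ) (B : Finset ℕ) (F : ℝ → ℝ) (z : ℝ)
    (h : ∀ i ∈ B, p i = q i) : Av a p B F z = Av a q B F z := by
  unfold Av
  refine Finset.sum_congr rfl fun S hS => ?_
  have hS' := Finset.mem_powerset.1 hS
  have e1 : ∏ i ∈ S, (1 - p i) = ∏ i ∈ S, (1 - q i) :=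
    Finset.prod_congr rfl fun i hi => by rw [h i (hS' hi)]
  have e2 : ∏ i ∈ B \ S, p i = ∏ i ∈ B \ S, q i :=
    Finset.prod_congr rfl fun i hi => h i (Finset.mem_sdiff.1 hi).1
  rw [e1, e2]

/-- Transfer to the cube. -/
theorem rLTr (h1 : S_TCfo) : S_LTr := by
  intro N f S
  have h := h1 N N tw (fun y => f (xb N y)) (LTr_P N) (LTr_u N) (LTr_cp N) 0 S
  have hf : (fun x : Fin N → Bool => (fun y => f (xb N y)) (0 + ∑ i ∈ range N,
      (if LTr_u N i x = -1 then tw i else 0))) = f := by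
    funext x
    exact LTr_sum f x
  rw [hf, LTr_Lp, one_mul, LTr_TT] at h
  rw [h]
  unfold Co
  refine LTr_Av _ _ _ _ _ _ fun i hi => ?_
  rw [LTr_pb N i (Finset.mem_range.1 (Finset.mem_sdiff.1 hi).1)]
  rfl

end Pool.Agent.MP3145b1.LD
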