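import Pool.Agent.Lib.MP_3145b1_co.UM.Asm2
import Pool.Agent.Lib.MP_3145b1_co.LD.LTr
import Pool.Agent.Lib.MP_3145b1_co.LD.LH4
import Pool.Agent.Lib.MP_3145b1_co.LD.LH1
import Pool.Agent.Lib.MP_3145b1_co.LD.LIn
import Pool.Agent.Lib.MP_3145b1_co.LD.LKk
import Pool.Agent.Lib.MP_3145b1_co.LD.LIs
import Pool.Agent.Lib.MP_3145b1_co.LD.LCt
import Pool.Agent.Lib.MP_3145b1_co.LD.LMx
import Pool.Agent.Lib.MP_3145b1_co.LD.LLg
import Pool.Agent.Lib.MP_3145b1_co.LD.LPt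
import Pool.Agent.Lib.MP_3145b1_co.LD.LPf

/-!
# MP_3145b1_co, project LD: assembly
-/

set_option autoImplicit false

namespace Pool.Agent.MP3145b1.LD

open Finset Pool.Agent.MP3145b1 Pool.Agent.MP3145b1.RC Pool.Agent.MP3145b1.RD Pool.Agent.MP3145b1.RT Pool.Agent.MP3145b1.UM

theorem lTr : S_LTr := rLTr tCfo

theorem lIs : S_LIs := rLIs (rLKk uLg rUAv lTr)

/-- the low-degree inequality -/
theorem lLg : S_LLg := rLLg (rLMx (rLIn uIn lTr) rLCt) lIs

/-- the min-entropy inequality for polynomial threshold functions of degree `d` -/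
theorem lPf : S_LPf := rLPf lLg lIs (rLPt (rLH1 (rLH4 uHc rURp lTr)))

end Pool.Agent.MP3145b1.LD
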