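import Pool.Agent.Lib.MP_3145b1_co.LD.Spec

/-!
# MP_3145b1_co, project LD, module LNs: Q1 for functions concentrated on low levels
-/

set_option autoImplicit false

namespace Pool.Agent.MP3145b1.LD

open Finset Pool.Agent.MP3145b1 Pool.Agent.MP3145b1.RC Pool.Agent.MP3145b1.RD Pool.Agent.MP3145b1.RT Pool.Agent.MP3145b1.UM

private theorem LNs_par (N : ℕ) (f : (Fin N → Bool) → ℝ) (hf : ∀ x, f x = 1 ∨ f x = -1) :
    ∑ S : Finset (Fin N), coeff f S ^ 2 = 1 := by
  rw [Q.parseval]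
  have h : (fun x => f x ^ 2) = fun _ => (1 : ℝ) := by
    funext x
    rcases hf x with h | h <;> rw [h] <;> norm_num
  rw [h, Q.mean_const]

private theorem LNs_sum (N : ℕ) (f : (Fin N → Bool) → ℝ) (hf : ∀ x, f x = 1 ∨ f x = -1) :
    ∑ S ∈ (univ : Finset (Finset (Fin N))).erase ∅, coeff f S ^ 2 = 1 - coeff f ∅ ^ 2 := by
  have h1 := LNs_par N f hf
  rw [← Finset.add_sum_erase _ _ (mem_univ (∅ : Finset (Fin N)))] at h1
  linarith

private theorem LNs_V0 (N : ℕ) (f : (Fin N → Bool) → ℝ) (hf : ∀ x, f x = 1 ∨ f x = -1) :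
    0 ≤ 1 - coeff f ∅ ^ 2 := by
  rw [← LNs_sum N f hf]
  exact Finset.sum_nonneg fun S _ => sq_nonneg _

private theorem LNs_VI (N : ℕ) (f : (Fin N → Bool) → ℝ) (hf : ∀ x, f x = 1 ∨ f x = -1) :
    1 - coeff f ∅ ^ 2 ≤ influence f := by
  rw [← LNs_sum N f hf]
  unfold influence
  rw [← Finset.add_sum_erase _ _ (mem_univ (∅ : Finset (Fin N)))]
  have h1 : ∑ S ∈ (univ : Finset (Finset (Fin N))).erase ∅, coeff f S ^ 2 ≤
      ∑ S ∈ (univ : Finset (Finset (Fin N))).erase ∅, (S.card : ℝ) * coeff f S ^ 2 := by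
    refine Finset.sum_le_sum fun S hS => ?_
    have h2 : 1 ≤ S.card := Finset.card_pos.2 (Finset.nonempty_iff_ne_empty.2 (Finset.ne_of_mem_erase hS))
    have h3 : (1 : ℝ) ≤ (S.card : ℝ) := by exact_mod_cast h2
    nlinarith [sq_nonneg (coeff f S)]
  have h4 : ((∅ : Finset (Fin N)).card : ℝ) * coeff f ∅ ^ 2 = 0 := by simp
  rw [h4, zero_add]
  exact h1

private theorem LNs_c1 (N : ℕ) (f : (Fin N → Bool) → ℝ) (hf : ∀ x, f x = 1 ∨ f x = -1)
    (S : Finset (Fin N)) : coeff f S ^ 2 ≤ 1 := by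
  rw [← LNs_par N f hf]
  exact Finset.single_le_sum (f := fun S => coeff f S ^ 2) (fun S _ => sq_nonneg _) (mem_univ S)

private theorem LNs_exp {V : ℝ} (h0 : 0 ≤ V) (h1 : V ≤ 1 / 2) : Real.exp (-V) ^ 2 ≤ 1 - V := by
  have e1 : Real.exp (-V) ^ 2 * Real.exp (2 * V) = 1 := by
    rw [← Real.exp_nat_mul, ← Real.exp_add]
    norm_num
  have e2 : 2 * V + 1 ≤ Real.exp (2 * V) := Real.add_one_le_exp _
  have e3 : 0 ≤ Real.exp (-V) ^ 2 := sq_nonneg _
  have e4 : Real.exp (-V) ^ 2 * (2 * V + 1) ≤ 1 :=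
    (mul_le_mul_of_nonneg_left e2 e3).trans e1.le
  have e5 : 1 ≤ (1 - V) * (2 * V + 1) := by nlinarith
  exact le_of_mul_le_mul_right (e4.trans e5) (by linarith)

/-- the low levels without the empty set -/
private theorem LNs_W (N d : ℕ) (f : (Fin N → Bool) → ℝ) :
    ∑ S ∈ univ.filter (fun S : Finset (Fin N) => S.card ≤ d), coeff f S ^ 2 =
      coeff f ∅ ^ 2 + Wd f d := by
  have h0 : (∅ : Finset (Fin N)) ∈ univ.filter (fun S : Finset (Fin N) => S.card ≤ d) := by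
    simp
  rw [← Finset.add_sum_erase _ _ h0]
  congr 1
  unfold Wd
  apply Finset.sum_congr
  · ext S
    simp only [Finset.mem_erase, Finset.mem_filter, Finset.mem_univ, true_and]
  · intro S _
    rfl

theorem rLNs (h1 : S_LLg) : S_LNs := by
  intro N d f hf hd hM
  have hV0 := LNs_V0 N f hf
  have hVI := LNs_VI N f hf
  have hI : 0 ≤ influence f := hV0.trans hVI
  have hd1 : (1 : ℝ) ≤ (d : ℝ) := by exact_mod_cast hd
  have hdd : (d : ℝ) ≤ (d : ℝ) ^ 2 := by nlinarith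
  have hd2 : (1 : ℝ) ≤ (d : ℝ) ^ 2 := hd1.trans hdd
  by_cases hv : 1 - coeff f ∅ ^ 2 ≤ 1 / 2
  · refine ⟨∅, ?_⟩
    have h1 := LNs_exp hV0 hv
    have h2 : Real.exp (-(1 - coeff f ∅ ^ 2)) ^ 2 ≤ coeff f ∅ ^ 2 := by linarith
    have h3 : Real.exp (-(1 - coeff f ∅ ^ 2)) ≤ |coeff f ∅| := by
      have h4 := sq_le_sq.1 h2
      rwa [abs_of_pos (Real.exp_pos _)] at h4
    refine le_trans (Real.exp_le_exp.2 ?_) h3
    have h5 : influence f ≤ (d : ℝ) ^ 2 * influence f := by nlinarith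
    have h6 : 0 ≤ (d : ℝ) ^ 2 * influence f := by positivity
    linarith
  · have hv' : 1 / 2 < 1 - coeff f ∅ ^ 2 := lt_of_not_ge hv
    rw [LNs_W] at hM
    have hW : 1 - coeff f ∅ ^ 2 - 1 / 4 ≤ Wd f d := by linarith
    have hW0 : 0 < Wd f d := by linarith
    obtain ⟨S, -, hc, hle⟩ := h1 N d f hf hd hW0
    refine ⟨S, ?_⟩
    have hr : Real.log ((1 - coeff f ∅ ^ 2) / Wd f d) ≤ Real.log 2 := by
      apply Real.log_le_log (by positivity)
      rw [div_le_iff₀ hW0]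
      linarith
    have hl2 : Real.log 2 ≤ 7 / 10 := by
      have := Real.log_two_lt_d9
      linarith
    have hr2 : (1 - coeff f ∅ ^ 2) * Real.log ((1 - coeff f ∅ ^ 2) / Wd f d) ≤
        7 / 10 * influence f := by
      calc (1 - coeff f ∅ ^ 2) * Real.log ((1 - coeff f ∅ ^ 2) / Wd f d)
          ≤ (1 - coeff f ∅ ^ 2) * (7 / 10) :=
            mul_le_mul_of_nonneg_left (hr.trans hl2) hV0
        _ ≤ 7 / 10 * influence f := by linarith
    have hr3 : 3 * (d : ℝ) * ((1 - coeff f ∅ ^ 2) * Real.log ((1 - coeff f ∅ ^ 2) / Wd f d)) ≤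
        3 * (d : ℝ) ^ 2 * influence f := by
      calc 3 * (d : ℝ) * ((1 - coeff f ∅ ^ 2) * Real.log ((1 - coeff f ∅ ^ 2) / Wd f d))
          ≤ 3 * (d : ℝ) * (7 / 10 * influence f) :=
            mul_le_mul_of_nonneg_left hr2 (by positivity)
        _ ≤ 3 * (d : ℝ) * influence f := by
            apply mul_le_mul_of_nonneg_left _ (by positivity)
            linarith
        _ ≤ 3 * (d : ℝ) ^ 2 * influence f := by
            apply mul_le_mul_of_nonneg_right _ hI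
            linarith
    have hc2 : 0 < coeff f S ^ 2 := by positivity
    have hL : Real.log (1 / coeff f S ^ 2) = -(2 * Real.log |coeff f S|) := by
      rw [one_div, Real.log_inv, Real.log_abs, Real.log_pow]
      norm_num
    have hL0 : 0 ≤ Real.log (1 / coeff f S ^ 2) := by
      apply Real.log_nonneg
      rw [le_div_iff₀ hc2, one_mul]
      exact LNs_c1 N f hf S
    rw [← Real.le_log_iff_exp_le (abs_pos.2 hc)]
    have h7 : 1 / 2 * Real.log (1 / coeff f S ^ 2) ≤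
        (1 - coeff f ∅ ^ 2) * Real.log (1 / coeff f S ^ 2) :=
      mul_le_mul_of_nonneg_right hv'.le hL0
    rw [hL] at h7 hle
    have h8 : 0 ≤ (d : ℝ) ^ 2 * influence f := by positivity
    nlinarith

end Pool.Agent.MP3145b1.LD
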