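import Pool.Agent.Lib.MP_3145b1_co.LD.Spec

set_option autoImplicit false

namespace Pool.Agent.MP3145b1.LD

open Finset Pool.Agent.MP3145b1 Pool.Agent.MP3145b1.RC Pool.Agent.MP3145b1.RD Pool.Agent.MP3145b1.RT Pool.Agent.MP3145b1.UM

private theorem LPt_coeff_add {N : ℕ} (f g : (Fin N → Bool) → ℝ) (S : Finset (Fin N)) :
    coeff (fun x => f x + g x) S = coeff f S + coeff g S := by
  rw [Q.coeff_mean, Q.coeff_mean, Q.coeff_mean, ← Q.mean_add]
  congr 1
  funext x
  ring

/-- Plancherel -/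
private theorem LPt_planch {N : ℕ} (f g : (Fin N → Bool) → ℝ) :
    ∑ S : Finset (Fin N), coeff f S * coeff g S = T.mean (fun x => f x * g x) := by
  have h1 := Q.parseval (fun x => f x + g x)
  have h2 := Q.parseval f
  have h3 := Q.parseval g
  have e1 : ∑ S : Finset (Fin N), coeff (fun x => f x + g x) S ^ 2 =
      ∑ S : Finset (Fin N), coeff f S ^ 2 + 2 * ∑ S : Finset (Fin N), coeff f S * coeff g S +
      ∑ S : Finset (Fin N), coeff g S ^ 2 := by
    rw [Finset.mul_sum, ← Finset.sum_add_distrib, ← Finset.sum_add_distrib]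
    refine Finset.sum_congr rfl fun S _ => ?_
    rw [LPt_coeff_add]
    ring
  have e2 : T.mean (fun x => (f x + g x) ^ 2) =
      T.mean (fun x => f x ^ 2) + 2 * T.mean (fun x => f x * g x) + T.mean (fun x => g x ^ 2) := by
    rw [← Q.mean_mul, ← Q.mean_add, ← Q.mean_add]
    congr 1
    funext x
    ring
  rw [e1, e2, h2, h3] at h1
  linarith

theorem rLPt (h1 : S_LH1) : S_LPt := by
  intro N d f g hf hg hfg hne
  obtain ⟨m1, hm1⟩ : ∃ m1, m1 = T.mean (fun x => |g x|) := ⟨_, rfl⟩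
  obtain ⟨μ, hμ⟩ : ∃ μ, μ = coeff f ∅ := ⟨_, rfl⟩
  obtain ⟨F, hF⟩ : ∃ F : Finset (Finset (Fin N)), F = univ.filter (fun S : Finset (Fin N) => S ≠ ∅ ∧ S.card ≤ d) :=
    ⟨_, rfl⟩
  have hW : Wd f d = ∑ S ∈ F, coeff f S ^ 2 := by rw [hF]; rfl
  have hm1pos : 0 < m1 := by
    obtain ⟨x0, hx0⟩ := hne
    rw [hm1]
    unfold T.mean
    refine div_pos ?_ (by positivity)
    exact Finset.sum_pos' (fun x _ => abs_nonneg _) ⟨x0, Finset.mem_univ _, abs_pos.2 hx0⟩
  have hg0 : |coeff g ∅| ≤ m1 := by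
    have e : coeff g ∅ = T.mean g := by
      rw [Q.coeff_mean]
      congr 1
      funext x
      simp [sgn]
    rw [e, hm1, abs_le]
    constructor
    · have := Q.mean_mono (φ := fun x => (-1) * |g x|) (ψ := g) (fun x => by
        have := neg_abs_le (g x); linarith)
      rw [Q.mean_mul] at this
      linarith
    · exact Q.mean_mono (fun x => le_abs_self (g x))
  have hμ1 : μ ^ 2 ≤ 1 := by
    have := Q.parseval f
    have e : T.mean (fun x => f x ^ 2) = 1 := by
      rw [← Q.mean_const (n := N) 1]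
      congr 1
      funext x
      rcases hf x with h | h <;> rw [h] <;> norm_num
    rw [e] at this
    rw [← this, hμ]
    exact Finset.single_le_sum (f := fun S => coeff f S ^ 2) (fun S _ => sq_nonneg _) (Finset.mem_univ ∅)
  have hμa : |μ| ≤ 1 := by
    rw [← sq_abs] at hμ1
    nlinarith [abs_nonneg μ]
  have hX : ∑ S ∈ F, coeff f S * coeff g S = m1 - μ * coeff g ∅ := by
    have hp := LPt_planch f g
    have e : T.mean (fun x => f x * g x) = m1 := by
      rw [hm1]
      congr 1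
      funext x
      exact hfg x
    rw [e, ← Finset.add_sum_erase _ _ (Finset.mem_univ ∅)] at hp
    have e2 : ∑ S ∈ (univ : Finset (Finset (Fin N))).erase ∅, coeff f S * coeff g S =
        ∑ S ∈ F, coeff f S * coeff g S := by
      rw [hF]
      symm
      refine Finset.sum_subset_zero_on_sdiff ?_ ?_ (fun _ _ => rfl)
      · intro S hS
        simp only [Finset.mem_filter, Finset.mem_univ, true_and] at hS
        exact Finset.mem_erase.2 ⟨hS.1, Finset.mem_univ _⟩
      · intro S hS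
        rw [Finset.mem_sdiff, Finset.mem_erase, Finset.mem_filter] at hS
        have hc : d < S.card := by
          by_contra hcon
          exact hS.2 ⟨Finset.mem_univ _, hS.1.1, by omega⟩
        rw [hg S hc, mul_zero]
    rw [e2] at hp
    rw [hμ]
    linarith
  obtain ⟨X, hXd⟩ : ∃ X, X = ∑ S ∈ F, coeff f S * coeff g S := ⟨_, rfl⟩
  rw [← hXd] at hX
  have hXlow : m1 * (1 - μ ^ 2) / 2 ≤ X := by
    rw [hX]
    have a1 : μ * coeff g ∅ ≤ |μ| * m1 := by
      calc μ * coeff g ∅ ≤ |μ * coeff g ∅| := le_abs_self _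
        _ = |μ| * |coeff g ∅| := abs_mul _ _
        _ ≤ |μ| * m1 := mul_le_mul_of_nonneg_left hg0 (abs_nonneg _)
    have a2 : (1 - μ ^ 2) / 2 ≤ 1 - |μ| := by
      rw [← sq_abs]
      nlinarith [abs_nonneg μ]
    have a3 := mul_le_mul_of_nonneg_left a2 hm1pos.le
    linarith
  have hV0 : 0 ≤ 1 - μ ^ 2 := by linarith
  have hX0 : 0 ≤ m1 * (1 - μ ^ 2) / 2 := by positivity
  have hCS : X ^ 2 ≤ Wd f d * T.mean (fun x => g x ^ 2) := by
    rw [hXd, hW]
    refine (Finset.sum_mul_sq_le_sq_mul_sq F _ _).trans ?_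
    refine mul_le_mul_of_nonneg_left ?_ (Finset.sum_nonneg fun S _ => sq_nonneg _)
    rw [← Q.parseval g]
    exact Finset.sum_le_sum_of_subset_of_nonneg (Finset.subset_univ _) (fun S _ _ => sq_nonneg _)
  have hH := h1 N d g hg
  rw [← hm1] at hH
  have hW0 : 0 ≤ Wd f d := by rw [hW]; exact Finset.sum_nonneg fun S _ => sq_nonneg _
  have k1 : (m1 * (1 - μ ^ 2) / 2) ^ 2 ≤ Wd f d * (16 ^ d * m1 ^ 2) := by
    calc (m1 * (1 - μ ^ 2) / 2) ^ 2 ≤ X ^ 2 := pow_le_pow_left₀ hX0 hXlow 2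
      _ ≤ Wd f d * T.mean (fun x => g x ^ 2) := hCS
      _ ≤ _ := mul_le_mul_of_nonneg_left hH hW0
  have k2 : m1 ^ 2 * ((1 - μ ^ 2) ^ 2 / 4) ≤ m1 ^ 2 * (Wd f d * 16 ^ d) := by nlinarith
  have k3 := le_of_mul_le_mul_left k2 (by positivity)
  rw [← hμ, div_le_iff₀ (by positivity)]
  linarith

end Pool.Agent.MP3145b1.LD
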