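import Pool.Agent.Lib.MP_3145b1_co.LD.Spec

/-!
# MP_3145b1_co, project LD, module PBl: blocks of variables
-/

set_option autoImplicit false

namespace Pool.Agent.MP3145b1.LD

open Finset Pool.Agent.MP3145b1 Pool.Agent.MP3145b1.RC Pool.Agent.MP3145b1.RD Pool.Agent.MP3145b1.RT Pool.Agent.MP3145b1.UM

/-- the point `x`, shifted by `σ` on the blocks -/
private def PBl_tx {n m : ℕ} (π : Fin n → Fin m) (x : Fin n → Bool) (σ : Fin m → Bool) : Fin n → Bool :=
  fun i => xor (x i) (σ (π i))

/-- inversion formula -/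
private theorem PBl_inv {n : ℕ} (g : (Fin n → Bool) → ℝ) (x : Fin n → Bool) :
    g x = ∑ S : Finset (Fin n), coeff g S * sgn x S := by
  have h1 : ∀ S : Finset (Fin n), coeff g S * sgn x S =
      (1 / (2 : ℝ) ^ n) * ∑ y : Fin n → Bool, g y *
        ∏ i ∈ S, ((if y i then (-1 : ℝ) else 1) * (if x i then (-1 : ℝ) else 1)) := by
    intro S
    unfold coeff sgn
    rw [mul_assoc, Finset.sum_mul]
    congr 1
    refine Finset.sum_congr rfl fun y _ => ?_
    rw [Finset.prod_mul_distrib, mul_assoc]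
  have h2 : ∀ y : Fin n → Bool, ∑ S : Finset (Fin n),
      ∏ i ∈ S, ((if y i then (-1 : ℝ) else 1) * (if x i then (-1 : ℝ) else 1)) =
      if y = x then (2 : ℝ) ^ n else 0 := by
    intro y
    have h3 : ∑ S : Finset (Fin n),
        ∏ i ∈ S, ((if y i then (-1 : ℝ) else 1) * (if x i then (-1 : ℝ) else 1)) =
        ∏ i : Fin n, (1 + (if y i then (-1 : ℝ) else 1) * (if x i then (-1 : ℝ) else 1)) := by
      rw [Finset.prod_one_add, Finset.powerset_univ]
    rw [h3]
    by_cases hyx : y = x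
    · subst hyx
      rw [if_pos rfl]
      have h4 : ∀ i ∈ (univ : Finset (Fin n)),
          (1 + (if y i then (-1 : ℝ) else 1) * (if y i then (-1 : ℝ) else 1)) = 2 := by
        intro i _
        split_ifs <;> norm_num
      rw [Finset.prod_congr rfl h4, Finset.prod_const, Finset.card_univ, Fintype.card_fin]
    · rw [if_neg hyx]
      obtain ⟨i, hi⟩ := Function.ne_iff.1 hyx
      apply Finset.prod_eq_zero (Finset.mem_univ i)
      cases h5 : y i <;> cases h6 : x i
      · exact absurd (h5.trans h6.symm) hi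
      · simp
      · simp
      · exact absurd (h5.trans h6.symm) hi
  rw [Finset.sum_congr rfl fun S _ => h1 S, ← Finset.mul_sum, Finset.sum_comm]
  have h7 : ∀ y : Fin n → Bool, ∑ S : Finset (Fin n), g y *
      ∏ i ∈ S, ((if y i then (-1 : ℝ) else 1) * (if x i then (-1 : ℝ) else 1)) =
      if y = x then g x * (2 : ℝ) ^ n else 0 := by
    intro y
    rw [← Finset.mul_sum, h2 y]
    by_cases hyx : y = x
    · rw [if_pos hyx, if_pos hyx, hyx]
    · rw [if_neg hyx, if_neg hyx, mul_zero]
  rw [Finset.sum_congr rfl fun y _ => h7 y, Finset.sum_ite_eq' Finset.univ x, if_pos (Finset.mem_univ x)]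
  field_simp

private theorem PBl_swap {n m : ℕ} (F : (Fin n → Bool) → (Fin m → Bool) → ℝ) :
    T.mean (fun x => T.mean (fun σ => F x σ)) = T.mean (fun σ => T.mean (fun x => F x σ)) := by
  unfold T.mean
  rw [← Finset.sum_div, ← Finset.sum_div, Finset.sum_comm, div_div, div_div, mul_comm]

private theorem PBl_inv' {n m : ℕ} (π : Fin n → Fin m) (σ : Fin m → Bool) :
    Function.Involutive (fun x : Fin n → Bool => PBl_tx π x σ) := by
  intro x
  funext i
  change xor (xor (x i) (σ (π i))) (σ (π i)) = x i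
  cases x i <;> cases σ (π i) <;> rfl

private theorem PBl_mean {n m : ℕ} (π : Fin n → Fin m) (φ : (Fin n → Bool) → ℝ) :
    T.mean φ = T.mean (fun x => T.mean (fun σ => φ (PBl_tx π x σ))) := by
  rw [PBl_swap]
  have h : ∀ σ : Fin m → Bool, T.mean (fun x => φ (PBl_tx π x σ)) = T.mean φ := by
    intro σ
    unfold T.mean
    congr 1
    exact Equiv.sum_comp (PBl_inv' π σ).toPerm φ
  simp only [h]
  rw [Q.mean_const]

private theorem PBl_fb {n m : ℕ} (π : Fin n → Fin m) (j : Fin m) (x : Fin n → Bool) (σ : Fin m → Bool) :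
    fb π j (PBl_tx π x σ) = PBl_tx π x (fl j σ) := by
  funext i
  unfold fb PBl_tx fl
  by_cases h : π i = j
  · rw [if_pos h, h, Function.update_self]
    cases x i <;> cases σ j <;> rfl
  · rw [if_neg h, Function.update_of_ne h]

private theorem PBl_sgn {n m : ℕ} (π : Fin n → Fin m) (x : Fin n → Bool) (σ : Fin m → Bool) (S : Finset (Fin n)) :
    sgn (PBl_tx π x σ) S = sgn x S * ∏ i ∈ S, (if σ (π i) then (-1 : ℝ) else 1) := by
  unfold sgn PBl_tx
  rw [← Finset.prod_mul_distrib]
  refine Finset.prod_congr rfl fun i _ => ?_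
  cases x i <;> cases σ (π i) <;> simp

private theorem PBl_low {n m : ℕ} (d : ℕ) (π : Fin n → Fin m) (g : (Fin n → Bool) → ℝ)
    (hg : ∀ S : Finset (Fin n), d < S.card → coeff g S = 0) (x : Fin n → Bool) (R : Finset (Fin m))
    (hR : d < R.card) : coeff (fun σ => g (PBl_tx π x σ)) R = 0 := by
  have h1 : coeff (fun σ => g (PBl_tx π x σ)) R =
      ∑ S : Finset (Fin n), coeff g S * sgn x S *
        coeff (fun σ : Fin m → Bool => ∏ i ∈ S, (if σ (π i) then (-1 : ℝ) else 1)) R := by
    rw [Q.coeff_mean]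
    have h2 : ∀ σ : Fin m → Bool, g (PBl_tx π x σ) * sgn σ R =
        ∑ S : Finset (Fin n), coeff g S * sgn x S *
          ((∏ i ∈ S, (if σ (π i) then (-1 : ℝ) else 1)) * sgn σ R) := by
      intro σ
      rw [PBl_inv g (PBl_tx π x σ), Finset.sum_mul]
      refine Finset.sum_congr rfl fun S _ => ?_
      rw [PBl_sgn]
      ring
    rw [show (fun σ : Fin m → Bool => g (PBl_tx π x σ) * sgn σ R) = fun σ : Fin m → Bool =>
        ∑ S : Finset (Fin n), coeff g S * sgn x S *
          ((∏ i ∈ S, (if σ (π i) then (-1 : ℝ) else 1)) * sgn σ R) from funext h2]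
    rw [Q.mean_sum]
    refine Finset.sum_congr rfl fun S _ => ?_
    rw [Q.mean_mul, ← Q.coeff_mean]
  rw [h1]
  apply Finset.sum_eq_zero
  intro S _
  by_cases hS : d < S.card
  · rw [hg S hS]
    ring
  · have h3 : (S.image π).card < R.card :=
      lt_of_le_of_lt (Finset.card_image_le.trans (not_lt.1 hS)) hR
    obtain ⟨j, hj, hj'⟩ : ∃ j ∈ R, j ∉ S.image π := by
      by_contra hcon
      push Not at hcon
      exact absurd (Finset.card_le_card (fun j hj => hcon j hj)) (not_le.2 h3)
    rw [Q.coeff_zero _ j R hj, mul_zero]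
    intro σ b
    refine Finset.prod_congr rfl fun i hi => ?_
    have h4 : π i ≠ j := fun h => hj' (Finset.mem_image.2 ⟨i, hi, h⟩)
    rw [Function.update_of_ne h4]

/-- **PBl** (blocks) -/
theorem rPBl (h1 : S_PQf) (h2 : S_PTi) : S_PBl := by
  intro n m d π f hf
  obtain ⟨hf1, g, hg, hfg⟩ := hf
  have h3 : ∀ x : Fin n → Bool, Pt d (fun σ : Fin m → Bool => f (PBl_tx π x σ)) := by
    intro x
    refine ⟨fun σ => hf1 _, fun σ => g (PBl_tx π x σ), fun R hR => PBl_low d π g hg x R hR, fun σ => hfg _⟩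
  have h4 : ∀ j : Fin m, T.mean (fun x => (1 - f x * f (fb π j x)) / 2) =
      T.mean (fun x => Qf (fun σ : Fin m → Bool => f (PBl_tx π x σ)) j) := by
    intro j
    rw [PBl_mean π (fun x => (1 - f x * f (fb π j x)) / 2)]
    congr 1
    funext x
    rw [h1.1 m (fun σ : Fin m → Bool => f (PBl_tx π x σ)) j (fun σ => hf1 _)]
    congr 1
    funext σ
    rw [PBl_fb]
  rw [Finset.sum_congr rfl fun j _ => h4 j, ← Q.mean_sum]
  calc T.mean (fun x => ∑ j : Fin m, Qf (fun σ : Fin m → Bool => f (PBl_tx π x σ)) j)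
      ≤ T.mean (fun _ : Fin n → Bool => Bq d m) := by
        apply Q.mean_mono
        intro x
        rw [← h1.2 m (fun σ : Fin m → Bool => f (PBl_tx π x σ))]
        exact h2 d m _ (h3 x)
    _ = Bq d m := Q.mean_const _

end Pool.Agent.MP3145b1.LD
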