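import Pool.Agent.Lib.MP_3145b1_co.LD.Spec

/-!
MP_3145b1_co, project LD, module PBq (helper64): the numbers `Bq`.
-/

set_option autoImplicit false

namespace Pool.Agent.MP3145b1.LD

open Finset Pool.Agent.MP3145b1 Pool.Agent.MP3145b1.RC Pool.Agent.MP3145b1.RD Pool.Agent.MP3145b1.RT Pool.Agent.MP3145b1.UM

private theorem PBq_arith (M s B : ℝ) (hs : 1 ≤ s) (hM : s ^ 2 ≤ M) (hB : B ≤ 2 * M / s ^ 2) :
    Real.sqrt (M + M * B) ≤ 2 * M / s := by
  have hs0 : 0 < s := by linarith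
  have hs2 : 0 < s ^ 2 := by positivity
  have hM0 : 0 < M := lt_of_lt_of_le hs2 hM
  apply Real.sqrt_le_iff.2
  refine ⟨by positivity, ?_⟩
  have h1 : M * B ≤ M * (2 * M / s ^ 2) := mul_le_mul_of_nonneg_left hB hM0.le
  have h2 : M ≤ M ^ 2 / s ^ 2 := by
    rw [le_div_iff₀ hs2]
    nlinarith
  have h3 : M * (2 * M / s ^ 2) = 2 * (M ^ 2 / s ^ 2) := by ring
  have h4 : (2 * M / s) ^ 2 = 4 * (M ^ 2 / s ^ 2) := by
    rw [div_pow]; ring
  have h5 : 0 ≤ M ^ 2 / s ^ 2 := by positivity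
  rw [h4]
  linarith

theorem rPBq : S_PBq := by
  intro d
  induction d with
  | zero =>
    intro m s hs _
    have : (0 : ℝ) ≤ 2 * m / s := by positivity
    simpa [Bq] using this
  | succ d ih =>
    intro m s hs h
    have hs1 : (1 : ℝ) ≤ s ^ 2 := one_le_pow₀ hs
    have h2 : (s ^ 2) ^ (2 ^ d) = (m : ℝ) := by
      rw [← pow_mul, ← h]
      congr 1
      ring
    have h3 := ih m (s ^ 2) hs1 h2
    have h4 : s ^ 2 ≤ (m : ℝ) := by
      rw [← h2]
      exact le_self_pow₀ hs1 (by positivity)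
    show Real.sqrt ((m : ℝ) + m * Bq d m) ≤ 2 * m / s
    exact PBq_arith m s (Bq d m) hs h4 h3

end Pool.Agent.MP3145b1.LD
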