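import Pool.Agent.Lib.MP_3145b1_co.LD.Spec

/-!
MP_3145b1_co, project LD (architect helper45), module PCn: concentration on the low levels.
-/

set_option autoImplicit false

namespace Pool.Agent.MP3145b1.LD

open Finset Pool.Agent.MP3145b1 Pool.Agent.MP3145b1.RC Pool.Agent.MP3145b1.RD Pool.Agent.MP3145b1.RT Pool.Agent.MP3145b1.UM

private theorem PCn_exp : Real.exp (-2) ≤ 1 / 5 := by
  have h1 : (2.7182818283 : ℝ) < Real.exp 1 := Real.exp_one_gt_d9
  have h2 : Real.exp 2 = Real.exp 1 * Real.exp 1 := by rw [← Real.exp_add]; norm_num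
  have h3 : (5 : ℝ) ≤ Real.exp 2 := by rw [h2]; nlinarith
  rw [Real.exp_neg, ← one_div]
  exact one_div_le_one_div_of_le (by norm_num) h3

private theorem PCn_pow (m c : ℕ) (hm : 20 ≤ m) (hc : m < c) :
    (1 - 2 / (m : ℝ)) ^ c ≤ 1 / 5 := by
  have hmR : (20 : ℝ) ≤ (m : ℝ) := by exact_mod_cast hm
  have h0 : (0 : ℝ) ≤ 1 - 2 / (m : ℝ) := by
    rw [sub_nonneg, div_le_one (by linarith)]; linarith
  have h1 : 1 - 2 / (m : ℝ) ≤ 1 := by
    have : (0 : ℝ) ≤ 2 / (m : ℝ) := by positivity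
    linarith
  have h2 : (1 - 2 / (m : ℝ)) ^ c ≤ (1 - 2 / (m : ℝ)) ^ m := pow_le_pow_of_le_one h0 h1 hc.le
  have h3 : 1 - 2 / (m : ℝ) ≤ Real.exp (-(2 / (m : ℝ))) := Real.one_sub_le_exp_neg _
  have h4 : (1 - 2 / (m : ℝ)) ^ m ≤ Real.exp (-(2 / (m : ℝ))) ^ m := pow_le_pow_left₀ h0 h3 m
  have h5 : Real.exp (-(2 / (m : ℝ))) ^ m = Real.exp (-2) := by
    rw [← Real.exp_nat_mul]
    congr 1
    field_simp
  have h6 := PCn_exp
  rw [h5] at h4
  linarith

theorem rPCn (h1 : S_PKk) (h2 : S_PBq) : S_PCn := by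
  intro n d k f F hk hf hF hfF
  obtain ⟨m, hm⟩ : ∃ m : ℕ, m = (20 * k) ^ (2 ^ d) := ⟨_, rfl⟩
  rw [← hm]
  have hm20 : 20 ≤ m := by
    have a1 : (20 * k) ^ 1 ≤ (20 * k) ^ (2 ^ d) :=
      Nat.pow_le_pow_right (by omega) Nat.one_le_two_pow
    rw [pow_one] at a1
    omega
  have hk' : (1 : ℝ) ≤ (k : ℝ) := by exact_mod_cast hk
  have hmR : (20 : ℝ) ≤ (m : ℝ) := by exact_mod_cast hm20
  have hB : Bq d m ≤ 2 * m / (20 * (k : ℝ)) :=
    h2 d m (20 * k) (by linarith) (by rw [hm]; push_cast; rfl)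
  have hK := h1 n m d k f F (by omega) hf hF hfF
  have hb : 2 * (k : ℝ) * Bq d m / m ≤ 1 / 5 := by
    rw [div_le_iff₀ (by linarith)]
    have a1 : 2 * (k : ℝ) * Bq d m ≤ 2 * k * (2 * m / (20 * (k : ℝ))) :=
      mul_le_mul_of_nonneg_left hB (by positivity)
    have e : 2 * (k : ℝ) * (2 * m / (20 * (k : ℝ))) = 1 / 5 * m := by
      field_simp
      norm_num
    linarith
  have hP : ∑ S : Finset (Fin n), coeff F S ^ 2 = 1 := by
    rw [Q.parseval]
    have e : (fun x => F x ^ 2) = fun _ : Fin n → Bool => (1 : ℝ) := by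
      funext x
      rcases hF x with h | h <;> rw [h] <;> norm_num
    rw [e, Q.mean_const]
  have h0 : (0 : ℝ) ≤ 1 - 2 / (m : ℝ) := by
    rw [sub_nonneg, div_le_one (by linarith)]; linarith
  have h1' : 1 - 2 / (m : ℝ) ≤ 1 := by
    have : (0 : ℝ) ≤ 2 / (m : ℝ) := by positivity
    linarith
  have hs1 := Finset.sum_filter_add_sum_filter_not (univ : Finset (Finset (Fin n)))
    (fun S : Finset (Fin n) => S.card ≤ m) (fun S => coeff F S ^ 2)
  have hs2 := Finset.sum_filter_add_sum_filter_not (univ : Finset (Finset (Fin n)))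
    (fun S : Finset (Fin n) => S.card ≤ m) (fun S => coeff F S ^ 2 * (1 - 2 / (m : ℝ)) ^ S.card)
  have hle1 : ∑ S ∈ univ.filter (fun S : Finset (Fin n) => S.card ≤ m),
      coeff F S ^ 2 * (1 - 2 / (m : ℝ)) ^ S.card ≤
      ∑ S ∈ univ.filter (fun S : Finset (Fin n) => S.card ≤ m), coeff F S ^ 2 := by
    refine Finset.sum_le_sum fun S _ => ?_
    have a1 : (1 - 2 / (m : ℝ)) ^ S.card ≤ 1 := pow_le_one₀ h0 h1'
    nlinarith [sq_nonneg (coeff F S)]
  have hle2 : ∑ S ∈ univ.filter (fun S : Finset (Fin n) => ¬ S.card ≤ m),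
      coeff F S ^ 2 * (1 - 2 / (m : ℝ)) ^ S.card ≤
      (1 / 5) * ∑ S ∈ univ.filter (fun S : Finset (Fin n) => ¬ S.card ≤ m), coeff F S ^ 2 := by
    rw [Finset.mul_sum]
    refine Finset.sum_le_sum fun S hS => ?_
    have a0 : m < S.card := by
      have := (Finset.mem_filter.mp hS).2
      omega
    have a1 := PCn_pow m S.card hm20 a0
    nlinarith [sq_nonneg (coeff F S)]
  rw [hP] at hs1
  linarith

end Pool.Agent.MP3145b1.LD
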