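import Pool.Agent.Lib.MP_3145b1_co.LD.Spec

/-! MP_3145b1_co, project LD, module PFn: final statement, THEOREM C. -/

set_option autoImplicit false

namespace Pool.Agent.MP3145b1.LD

open Finset Pool.Agent.MP3145b1 Pool.Agent.MP3145b1.RC Pool.Agent.MP3145b1.RD Pool.Agent.MP3145b1.RT Pool.Agent.MP3145b1.UM

theorem rPFn (h1 : S_PCn) (h2 : S_LNs) : S_PFn := by
  intro n d k f F hk hf hF hFf
  have hc := h1 n d k f F hk hf hF hFf
  have hpos : 1 ≤ (20 * k) ^ (2 ^ d) := Nat.one_le_pow _ _ (by omega)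
  obtain ⟨S, hS⟩ := h2 n ((20 * k) ^ (2 ^ d)) F hF hpos hc
  refine ⟨S, ?_⟩
  have hcast : (((20 * k) ^ (2 ^ d) : ℕ) : ℝ) ^ 2 = (20 * (k : ℝ)) ^ (2 ^ (d + 1)) := by
    push_cast
    rw [← pow_mul, pow_succ]
  rw [hcast] at hS
  exact hS

end Pool.Agent.MP3145b1.LD
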