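import Pool.Agent.Lib.MP_3145b1_co.LD.Spec

/-! MP_3145b1_co, project LD: random blocks. -/

set_option autoImplicit false

namespace Pool.Agent.MP3145b1.LD

open Finset Pool.Agent.MP3145b1 Pool.Agent.MP3145b1.RC Pool.Agent.MP3145b1.RD Pool.Agent.MP3145b1.RT Pool.Agent.MP3145b1.UM

private lemma PFo_fb_fb {n m : ℕ} (π : Fin n → Fin m) (j : Fin m) (x : Fin n → Bool) :
    fb π j (fb π j x) = x := by
  funext i
  unfold fb
  by_cases h : π i = j <;> simp [h]

private lemma PFo_mean_fb {n m : ℕ} (π : Fin n → Fin m) (j : Fin m) (φ : (Fin n → Bool) → ℝ) :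
    T.mean (fun x => φ (fb π j x)) = T.mean φ := by
  unfold T.mean
  congr 1
  exact Equiv.sum_comp (Function.Involutive.toPerm (fb π j) (PFo_fb_fb π j)) φ

/-- the sign of the block -/
private noncomputable def PFo_e {n m : ℕ} (π : Fin n → Fin m) (j : Fin m) (S : Finset (Fin n)) : ℝ :=
  ∏ i ∈ S, (if π i = j then (-1 : ℝ) else 1)

private lemma PFo_sgn {n m : ℕ} (π : Fin n → Fin m) (j : Fin m) (x : Fin n → Bool) (S : Finset (Fin n)) :
    sgn (fb π j x) S = PFo_e π j S * sgn x S := by
  unfold sgn PFo_e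
  rw [← Finset.prod_mul_distrib]
  apply Finset.prod_congr rfl
  intro i _
  unfold fb
  by_cases h : π i = j <;> cases x i <;> simp [h]

private lemma PFo_coeff {n m : ℕ} (π : Fin n → Fin m) (j : Fin m) (F : (Fin n → Bool) → ℝ)
    (S : Finset (Fin n)) : coeff (fun x => F (fb π j x)) S = PFo_e π j S * coeff F S := by
  rw [Q.coeff_mean, ← PFo_mean_fb π j (fun x => F (fb π j x) * sgn x S), Q.coeff_mean, ← Q.mean_mul]
  congr 1
  funext x
  rw [PFo_fb_fb, PFo_sgn]
  ring

private lemma PFo_coeff_add {n : ℕ} (F G : (Fin n → Bool) → ℝ) (S : Finset (Fin n)) :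
    coeff (fun x => F x + G x) S = coeff F S + coeff G S := by
  rw [Q.coeff_mean, Q.coeff_mean, Q.coeff_mean, ← Q.mean_add]
  congr 1
  funext x
  ring

private lemma PFo_planch {n : ℕ} (F G : (Fin n → Bool) → ℝ) :
    T.mean (fun x => F x * G x) = ∑ S : Finset (Fin n), coeff F S * coeff G S := by
  have h1 := Q.parseval (fun x => F x + G x)
  have h2 := Q.parseval F
  have h3 := Q.parseval G
  have h4 : T.mean (fun x => (F x + G x) ^ 2) =
      T.mean (fun x => F x ^ 2) + T.mean (fun x => G x ^ 2) + 2 * T.mean (fun x => F x * G x) := by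
    rw [← Q.mean_mul, ← Q.mean_add, ← Q.mean_add]
    congr 1
    funext x
    ring
  have h5 : ∑ S : Finset (Fin n), coeff (fun x => F x + G x) S ^ 2 =
      ∑ S : Finset (Fin n), coeff F S ^ 2 + ∑ S : Finset (Fin n), coeff G S ^ 2 +
        2 * ∑ S : Finset (Fin n), coeff F S * coeff G S := by
    rw [Finset.mul_sum, ← Finset.sum_add_distrib, ← Finset.sum_add_distrib]
    apply Finset.sum_congr rfl
    intro S _
    rw [PFo_coeff_add]
    ring
  linarith

private lemma PFo_a {n m : ℕ} (π : Fin n → Fin m) (j : Fin m) (F : (Fin n → Bool) → ℝ) :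
    T.mean (fun x => F x * F (fb π j x)) = ∑ S : Finset (Fin n), coeff F S ^ 2 * PFo_e π j S := by
  rw [PFo_planch F (fun x => F (fb π j x))]
  apply Finset.sum_congr rfl
  intro S _
  rw [PFo_coeff]
  ring

private lemma PFo_in {m : ℕ} (j : Fin m) :
    ∑ b : Fin m, (if b = j then (-1 : ℝ) else 1) = (m : ℝ) - 2 := by
  have h : ∀ b : Fin m, (if b = j then (-1 : ℝ) else 1) = 1 - (if b = j then (2 : ℝ) else 0) := by
    intro b
    split_ifs <;> norm_num
  simp only [h]
  rw [Finset.sum_sub_distrib]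
  simp

private lemma PFo_b {n m : ℕ} (j : Fin m) (S : Finset (Fin n)) :
    ∑ π : Fin n → Fin m, PFo_e π j S = ((m : ℝ) - 2) ^ S.card * (m : ℝ) ^ (n - S.card) := by
  have h1 : ∀ π : Fin n → Fin m, PFo_e π j S =
      ∏ i : Fin n, (if i ∈ S then (if π i = j then (-1 : ℝ) else 1) else 1) := by
    intro π
    unfold PFo_e
    rw [Finset.prod_ite_mem, Finset.univ_inter]
  simp only [h1]
  have h2 := Finset.prod_univ_sum (fun _ : Fin n => (univ : Finset (Fin m)))
    (fun i b => (if i ∈ S then (if b = j then (-1 : ℝ) else 1) else 1))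
  rw [Fintype.piFinset_univ] at h2
  rw [← h2]
  have h3 : ∀ i : Fin n, ∑ b : Fin m, (if i ∈ S then (if b = j then (-1 : ℝ) else 1) else 1) =
      if i ∈ S then (m : ℝ) - 2 else (m : ℝ) := by
    intro i
    split_ifs with h
    · exact PFo_in j
    · simp
  simp only [h3]
  rw [Finset.prod_ite, Finset.prod_const, Finset.prod_const]
  have h4 : (univ.filter (fun i : Fin n => i ∈ S)) = S := by
    ext i
    simp
  have h5 : (univ.filter (fun i : Fin n => i ∉ S)).card = n - S.card := by
    have h6 : (univ.filter (fun i : Fin n => i ∉ S)) = Sᶜ := by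
      ext i
      simp
    rw [h6, Finset.card_compl, Fintype.card_fin]
  rw [h4, h5]

theorem rPFo : S_PFo := by
  classical
  intro n m F hm
  have hm0 : (0 : ℝ) < (m : ℝ) := by exact_mod_cast hm
  have h1 : (∑ π : Fin n → Fin m, ∑ j : Fin m, T.mean (fun x => F x * F (fb π j x))) =
      ∑ S : Finset (Fin n), coeff F S ^ 2 * ((m : ℝ) * (((m : ℝ) - 2) ^ S.card * (m : ℝ) ^ (n - S.card))) := by
    simp only [PFo_a]
    have h2 : ∀ π : Fin n → Fin m, ∑ j : Fin m, ∑ S : Finset (Fin n), coeff F S ^ 2 * PFo_e π j S =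
        ∑ S : Finset (Fin n), ∑ j : Fin m, coeff F S ^ 2 * PFo_e π j S := fun π => Finset.sum_comm
    simp only [h2]
    rw [Finset.sum_comm]
    apply Finset.sum_congr rfl
    intro S _
    rw [Finset.sum_comm]
    simp only [← Finset.mul_sum, PFo_b]
    rw [Finset.sum_const, Finset.card_univ, Fintype.card_fin, nsmul_eq_mul]
    ring
  rw [h1, Finset.sum_div]
  apply Finset.sum_congr rfl
  intro S _
  have hS : S.card ≤ n := by
    have := Finset.card_le_univ S
    simpa using this
  have h3 : (m : ℝ) ^ n = (m : ℝ) ^ S.card * (m : ℝ) ^ (n - S.card) := by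
    rw [← pow_add, Nat.add_sub_cancel' hS]
  have h4 : (1 - 2 / (m : ℝ)) = ((m : ℝ) - 2) / m := by
    field_simp
  rw [h3, h4, div_pow]
  have h5 : (m : ℝ) ^ S.card ≠ 0 := by positivity
  have h6 : (m : ℝ) ^ (n - S.card) ≠ 0 := by positivity
  field_simp

end Pool.Agent.MP3145b1.LD
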