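import Pool.Agent.Lib.MP_3145b1_co.LD.Spec

set_option autoImplicit false

namespace Pool.Agent.MP3145b1.LD

open Finset Pool.Agent.MP3145b1 Pool.Agent.MP3145b1.RC Pool.Agent.MP3145b1.RD Pool.Agent.MP3145b1.RT Pool.Agent.MP3145b1.UM

private theorem PKk_nonneg {a b : ℝ} (ha : a = 1 ∨ a = -1) (hb : b = 1 ∨ b = -1) :
    0 ≤ (1 - a * b) / 2 := by
  rcases ha with rfl | rfl <;> rcases hb with rfl | rfl <;> norm_num

private theorem PKk_one {a b : ℝ} (ha : a = 1 ∨ a = -1) (hb : b = 1 ∨ b = -1) (h : a ≠ b) :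
    (1 - a * b) / 2 = 1 := by
  rcases ha with rfl | rfl <;> rcases hb with rfl | rfl
  · exact absurd rfl h
  · norm_num
  · norm_num
  · exact absurd rfl h

private theorem PKk_point {n k : ℕ} (f : Fin k → (Fin n → Bool) → ℝ) (F : (Fin n → Bool) → ℝ)
    (hf : ∀ l x, f l x = 1 ∨ f l x = -1) (hF : ∀ x, F x = 1 ∨ F x = -1)
    (h : ∀ x y, (∀ l, f l x = f l y) → F x = F y) (x y : Fin n → Bool) :
    1 - F x * F y ≤ 2 * ∑ l, (1 - f l x * f l y) / 2 := by
  have h0 : ∀ l ∈ (univ : Finset (Fin k)), 0 ≤ (1 - f l x * f l y) / 2 := fun l _ =>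
    PKk_nonneg (hf l x) (hf l y)
  by_cases hxy : F x = F y
  · have h1 : F x * F y = 1 := by
      rw [← hxy]
      rcases hF x with e | e <;> rw [e] <;> norm_num
    have h2 := Finset.sum_nonneg h0
    linarith
  · obtain ⟨l, hl⟩ : ∃ l, f l x ≠ f l y := by
      by_contra hcon
      push Not at hcon
      exact hxy (h x y hcon)
    have h1 : (1 - F x * F y) / 2 = 1 := PKk_one (hF x) (hF y) hxy
    have h2 : (1 - f l x * f l y) / 2 = 1 := PKk_one (hf l x) (hf l y) hl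
    have h3 := Finset.single_le_sum h0 (Finset.mem_univ l)
    rw [h2] at h3
    linarith

private theorem PKk_map (h1 : S_PBl) {n m d k : ℕ} (f : Fin k → (Fin n → Bool) → ℝ)
    (F : (Fin n → Bool) → ℝ) (hf : ∀ l, Pt d (f l)) (hF : ∀ x, F x = 1 ∨ F x = -1)
    (h : ∀ x y, (∀ l, f l x = f l y) → F x = F y) (π : Fin n → Fin m) :
    (m : ℝ) - 2 * k * Bq d m ≤ ∑ j : Fin m, T.mean (fun x => F x * F (fb π j x)) := by
  have e1 : ∀ j : Fin m, 1 - T.mean (fun x => F x * F (fb π j x)) ≤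
      2 * ∑ l : Fin k, T.mean (fun x => (1 - f l x * f l (fb π j x)) / 2) := by
    intro j
    have a1 : T.mean (fun x => 1 - F x * F (fb π j x)) =
        1 - T.mean (fun x => F x * F (fb π j x)) := by
      rw [Q.mean_sub (fun _ => (1 : ℝ)) (fun x => F x * F (fb π j x)), Q.mean_const]
    have a2 : T.mean (fun x => 2 * ∑ l : Fin k, (1 - f l x * f l (fb π j x)) / 2) =
        2 * ∑ l : Fin k, T.mean (fun x => (1 - f l x * f l (fb π j x)) / 2) := by
      rw [Q.mean_mul, Q.mean_sum univ (fun l x => (1 - f l x * f l (fb π j x)) / 2)]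
    rw [← a1, ← a2]
    exact Q.mean_mono fun x => PKk_point f F (fun l => (hf l).1) hF h x (fb π j x)
  have e2 := Finset.sum_le_sum (fun j (_ : j ∈ (univ : Finset (Fin m))) => e1 j)
  rw [← Finset.mul_sum, Finset.sum_comm, Finset.sum_sub_distrib] at e2
  have e3 : ∑ l : Fin k, ∑ j : Fin m, T.mean (fun x => (1 - f l x * f l (fb π j x)) / 2) ≤
      ∑ _l : Fin k, Bq d m := Finset.sum_le_sum fun l _ => h1 n m d π (f l) (hf l)
  simp only [Finset.sum_const, Finset.card_univ, Fintype.card_fin, nsmul_eq_mul, mul_one] at e2 e3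
  linarith

theorem rPKk (h1 : S_PBl) (h2 : S_PFo) : S_PKk := by
  intro n m d k f F hm hf hF h
  rw [← h2 n m F hm]
  have hm' : (0 : ℝ) < m := by exact_mod_cast hm
  have e1 : ∑ _π : Fin n → Fin m, ((m : ℝ) - 2 * k * Bq d m) ≤
      ∑ π : Fin n → Fin m, ∑ j, T.mean (fun x => F x * F (fb π j x)) :=
    Finset.sum_le_sum fun π _ => PKk_map h1 f F hf hF h π
  rw [Finset.sum_const, Finset.card_univ, Fintype.card_fun, Fintype.card_fin, Fintype.card_fin,
    nsmul_eq_mul, Nat.cast_pow] at e1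
  have hp : (0 : ℝ) < (m : ℝ) ^ n := pow_pos hm' n
  have e2 : ((m : ℝ) ^ n * ((m : ℝ) - 2 * k * Bq d m)) / ((m : ℝ) ^ n * m) ≤
      (∑ π : Fin n → Fin m, ∑ j, T.mean (fun x => F x * F (fb π j x))) / ((m : ℝ) ^ n * m) :=
    div_le_div_of_nonneg_right e1 (by positivity)
  have e3 : ((m : ℝ) ^ n * ((m : ℝ) - 2 * k * Bq d m)) / ((m : ℝ) ^ n * m) =
      1 - 2 * k * Bq d m / m := by
    field_simp
  rw [e3] at e2
  linarith

end Pool.Agent.MP3145b1.LD
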