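import Pool.Agent.Lib.MP_3145b1_co.LD.Spec

/-! MP_3145b1_co, project LD: influence and pivotal probability. -/

set_option autoImplicit false

namespace Pool.Agent.MP3145b1.LD

open Finset Pool.Agent.MP3145b1 Pool.Agent.MP3145b1.RC Pool.Agent.MP3145b1.RD Pool.Agent.MP3145b1.RT Pool.Agent.MP3145b1.UM

private lemma PQf_fl_fl {N : ℕ} (i : Fin N) (x : Fin N → Bool) : fl i (fl i x) = x := by
  unfold fl
  simp

private lemma PQf_mean_fl {N : ℕ} (i : Fin N) (φ : (Fin N → Bool) → ℝ) :
    T.mean (fun x => φ (fl i x)) = T.mean φ := by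
  unfold T.mean
  congr 1
  exact Equiv.sum_comp (Function.Involutive.toPerm (fl i) (PQf_fl_fl i)) φ

private lemma PQf_sgn {N : ℕ} (i : Fin N) (x : Fin N → Bool) (S : Finset (Fin N)) :
    sgn (fl i x) S = (if i ∈ S then -1 else 1) * sgn x S := by
  split_ifs with h
  · unfold fl
    rw [Q.sgn_upd_in x i (!x i) S h]
    have h1 : sgn x S = (if x i then (-1 : ℝ) else 1) * sgn x (S.erase i) := by
      unfold sgn
      rw [← Finset.mul_prod_erase S _ h]
    rw [h1]
    cases x i <;> simp
  · unfold fl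
    rw [Q.sgn_upd_out x i (!x i) S h, one_mul]

private lemma PQf_coeff {N : ℕ} (i : Fin N) (f : (Fin N → Bool) → ℝ) (S : Finset (Fin N)) :
    coeff (fun x => (f x - f (fl i x)) / 2) S = if i ∈ S then coeff f S else 0 := by
  rw [Q.coeff_mean]
  have h1 : (fun x => (f x - f (fl i x)) / 2 * sgn x S) =
      fun x => (1 / 2 : ℝ) * ((f x * sgn x S) - (f (fl i x) * sgn x S)) := by
    funext x
    ring
  have h2 : T.mean (fun x => f (fl i x) * sgn x S) = (if i ∈ S then -1 else 1) * coeff f S := by
    rw [← PQf_mean_fl i (fun x => f (fl i x) * sgn x S), Q.coeff_mean, ← Q.mean_mul]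
    congr 1
    funext x
    rw [PQf_fl_fl, PQf_sgn]
    ring
  rw [h1, Q.mean_mul, Q.mean_sub, h2, ← Q.coeff_mean]
  split_ifs <;> ring

theorem rPQf : S_PQf := by
  classical
  refine ⟨fun N f i hf => ?_, fun N f => ?_⟩
  · have h1 : Qf f i = ∑ S : Finset (Fin N), coeff (fun x => (f x - f (fl i x)) / 2) S ^ 2 := by
      unfold Qf
      rw [Finset.sum_filter]
      apply Finset.sum_congr rfl
      intro S _
      rw [PQf_coeff]
      split_ifs
      · rfl
      · norm_num
    rw [h1, Q.parseval]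
    congr 1
    funext x
    have h2 : f x ^ 2 = 1 := by
      rcases hf x with h | h <;> rw [h] <;> norm_num
    have h3 : f (fl i x) ^ 2 = 1 := by
      rcases hf (fl i x) with h | h <;> rw [h] <;> norm_num
    have h4 : ((f x - f (fl i x)) / 2) ^ 2 = (f x ^ 2 + f (fl i x) ^ 2 - 2 * (f x * f (fl i x))) / 4 := by
      ring
    rw [h4, h2, h3]
    ring
  · unfold influence Qf
    simp only [Finset.sum_filter]
    rw [Finset.sum_comm]
    apply Finset.sum_congr rfl
    intro S _
    rw [← Finset.sum_filter, Finset.sum_const, nsmul_eq_mul]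
    congr 2
    congr 1
    ext i
    simp

end Pool.Agent.MP3145b1.LD
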