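import Pool.Agent.Lib.MP_3145b1_co.LD.Spec

/-!
# MP_3145b1_co, project LD: total influence of a polynomial threshold function
-/

set_option autoImplicit false

namespace Pool.Agent.MP3145b1.LD

open Finset Pool.Agent.MP3145b1 Pool.Agent.MP3145b1.RC Pool.Agent.MP3145b1.RD Pool.Agent.MP3145b1.RT Pool.Agent.MP3145b1.UM

/-- half difference in the variable `j` -/
private noncomputable def PTi_D {m : ℕ} (j : Fin m) (g : (Fin m → Bool) → ℝ) (x : Fin m → Bool) : ℝ :=
  (g (Function.update x j false) - g (Function.update x j true)) / 2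

/-- value of the variable `j` -/
private noncomputable def PTi_c {m : ℕ} (j : Fin m) (x : Fin m → Bool) : ℝ := if x j then -1 else 1

/-- sign of the half difference -/
private noncomputable def PTi_h {m : ℕ} (j : Fin m) (g : (Fin m → Bool) → ℝ) (x : Fin m → Bool) : ℝ :=
  if 0 ≤ PTi_D j g x then 1 else -1

private theorem PTi_D_upd {m : ℕ} (j : Fin m) (g : (Fin m → Bool) → ℝ) (x : Fin m → Bool) (b : Bool) :
    PTi_D j g (Function.update x j b) = PTi_D j g x := by
  unfold PTi_D
  rw [Function.update_idem, Function.update_idem]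

private theorem PTi_D_fl {m : ℕ} (j : Fin m) (g : (Fin m → Bool) → ℝ) (x : Fin m → Bool) :
    PTi_D j g (fl j x) = PTi_D j g x := PTi_D_upd j g x _

private theorem PTi_h_fl {m : ℕ} (j : Fin m) (g : (Fin m → Bool) → ℝ) (x : Fin m → Bool) :
    PTi_h j g (fl j x) = PTi_h j g x := by
  unfold PTi_h
  rw [PTi_D_fl]

private theorem PTi_c_fl {m : ℕ} (j : Fin m) (x : Fin m → Bool) : PTi_c j (fl j x) = -PTi_c j x := by
  unfold PTi_c fl
  rw [Function.update_self]
  cases x j <;> simp

private theorem PTi_c_fl' {m : ℕ} (j l : Fin m) (h : l ≠ j) (x : Fin m → Bool) :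
    PTi_c l (fl j x) = PTi_c l x := by
  unfold PTi_c fl
  rw [Function.update_of_ne h]

private theorem PTi_c_val {m : ℕ} (j : Fin m) (x : Fin m → Bool) : PTi_c j x = 1 ∨ PTi_c j x = -1 := by
  unfold PTi_c
  split_ifs
  · exact Or.inr rfl
  · exact Or.inl rfl

private theorem PTi_h_val {m : ℕ} (j : Fin m) (g : (Fin m → Bool) → ℝ) (x : Fin m → Bool) :
    PTi_h j g x = 1 ∨ PTi_h j g x = -1 := by
  unfold PTi_h
  split_ifs
  · exact Or.inl rfl
  · exact Or.inr rfl

private theorem PTi_Dc {m : ℕ} (j : Fin m) (g : (Fin m → Bool) → ℝ) (x : Fin m → Bool) :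
    PTi_c j x * PTi_D j g x = (g x - g (fl j x)) / 2 := by
  unfold PTi_c PTi_D fl
  cases hx : x j
  · have e : Function.update x j false = x := by rw [← hx, Function.update_eq_self]
    rw [e]
    simp
  · have e : Function.update x j true = x := by rw [← hx, Function.update_eq_self]
    rw [e]
    simp only [Bool.not_true, if_true]
    ring

/-- pairing `x` with `fl j x` -/
private theorem PTi_pair {m : ℕ} (j : Fin m) (φ : (Fin m → Bool) → ℝ) :
    T.mean (fun x => (φ x + φ (fl j x)) / 2) = T.mean φ := by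
  rw [← Q.mean_upd j φ]
  congr 1
  funext x
  unfold fl
  cases hx : x j
  · have e : Function.update x j false = x := by rw [← hx, Function.update_eq_self]
    rw [e]
    simp
  · have e : Function.update x j true = x := by rw [← hx, Function.update_eq_self]
    rw [e]
    simp only [Bool.not_true]
    ring

private theorem PTi_D_coeff {m : ℕ} (j : Fin m) (g : (Fin m → Bool) → ℝ) (S : Finset (Fin m))
    (hj : j ∉ S) : coeff (PTi_D j g) S = coeff g (insert j S) := by
  rw [Q.coeff_mean, Q.coeff_mean, ← Q.mean_upd j (fun x => g x * sgn x (insert j S))]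
  congr 1
  funext x
  rw [Q.sgn_upd_in x j false _ (Finset.mem_insert_self j S),
    Q.sgn_upd_in x j true _ (Finset.mem_insert_self j S), Finset.erase_insert hj]
  unfold PTi_D
  simp only [if_true, Bool.false_eq_true, if_false]
  ring

private theorem PTi_D_zero {m d : ℕ} (j : Fin m) (g : (Fin m → Bool) → ℝ)
    (hg : ∀ S : Finset (Fin m), d < S.card → coeff g S = 0) (S : Finset (Fin m))
    (hS : d < S.card + 1) : coeff (PTi_D j g) S = 0 := by
  by_cases hj : j ∈ S
  · exact Q.coeff_zero _ j S hj (fun y b => PTi_D_upd j g y b)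
  · rw [PTi_D_coeff j g S hj]
    refine hg _ ?_
    rw [Finset.card_insert_of_notMem hj]
    exact hS

private theorem PTi_eps {α : Type} [Finite α] (D : α → ℝ) :
    ∃ ε : ℝ, 0 < ε ∧ ∀ x, D x < 0 → D x + ε < 0 := by
  have h : ∀ x, ∀ᶠ ε in nhdsWithin (0 : ℝ) (Set.Ioi 0), D x < 0 → D x + ε < 0 := by
    intro x
    by_cases hx : D x < 0
    · filter_upwards [Ioo_mem_nhdsGT (show (0 : ℝ) < -D x by linarith)] with ε hε _
      linarith [hε.2]
    · exact Filter.Eventually.of_forall (fun _ h' => absurd h' hx)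
  obtain ⟨ε, h1, h2⟩ := ((Filter.eventually_all.2 h).and self_mem_nhdsWithin).exists
  exact ⟨ε, h2, h1⟩

private theorem PTi_pt {m d : ℕ} (j : Fin m) (g : (Fin m → Bool) → ℝ)
    (hg : ∀ S : Finset (Fin m), d + 1 < S.card → coeff g S = 0) : Pt d (PTi_h j g) := by
  obtain ⟨ε, h0, hε⟩ := PTi_eps (PTi_D j g)
  refine ⟨PTi_h_val j g, fun x => PTi_D j g x + ε, ?_, ?_⟩
  · intro S hS
    obtain ⟨i, hi⟩ : S.Nonempty := Finset.card_pos.1 (by omega)
    have e1 := PTi_D_zero j g hg S (by omega)
    have e2 : coeff (fun _ : Fin m → Bool => ε) S = 0 := Q.coeff_zero _ i S hi (fun _ _ => rfl)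
    rw [Q.coeff_mean] at e1 e2 ⊢
    have e3 : (fun x => (PTi_D j g x + ε) * sgn x S) =
        fun x => PTi_D j g x * sgn x S + ε * sgn x S := by
      funext x
      ring
    rw [e3, Q.mean_add, e1, e2, add_zero]
  · intro x
    unfold PTi_h
    by_cases hx : 0 ≤ PTi_D j g x
    · rw [if_pos hx]
      linarith
    · rw [if_neg hx]
      linarith [hε x (not_le.1 hx)]

private theorem PTi_pm {a b : ℝ} (ha : a = 1 ∨ a = -1) (hb : b = 1 ∨ b = -1) :
    |a - b| / 2 = (1 - a * b) / 2 := by
  rcases ha with rfl | rfl <;> rcases hb with rfl | rfl <;> norm_num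

private theorem PTi_key {m : ℕ} (j : Fin m) (f g : (Fin m → Bool) → ℝ)
    (hf : ∀ x, f x = 1 ∨ f x = -1) (hg : ∀ x, 0 < f x * g x) (x : Fin m → Bool) :
    (f x * (PTi_c j x * PTi_h j g x) + f (fl j x) * (PTi_c j (fl j x) * PTi_h j g (fl j x))) / 2 =
      (1 - f x * f (fl j x)) / 2 := by
  rw [PTi_h_fl, PTi_c_fl]
  have h1 := PTi_Dc j g x
  have h2 := hg x
  have h3 := hg (fl j x)
  have hc := PTi_c_val j x
  unfold PTi_h
  rcases hf x with ha | ha <;> rcases hf (fl j x) with hb | hb <;> rw [ha] at h2 ⊢ <;>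
    rw [hb] at h3 ⊢
  · ring
  · rcases hc with hc | hc <;> rw [hc] at h1 ⊢
    · rw [if_pos (by linarith)]; norm_num
    · rw [if_neg (by intro h; linarith)]; norm_num
  · rcases hc with hc | hc <;> rw [hc] at h1 ⊢
    · rw [if_neg (by intro h; linarith)]; norm_num
    · rw [if_pos (by linarith)]; norm_num
  · ring

private theorem PTi_Qf_nonneg {m : ℕ} (f : (Fin m → Bool) → ℝ) (i : Fin m) : 0 ≤ Qf f i :=
  Finset.sum_nonneg fun _ _ => sq_nonneg _

private theorem PTi_base (h1 : S_PQf) {m : ℕ} (f : (Fin m → Bool) → ℝ) (h : Pt 0 f) :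
    influence f ≤ 0 := by
  obtain ⟨hf, g, hg, hp⟩ := h
  rw [h1.2 m f]
  refine le_of_eq (Finset.sum_eq_zero fun j _ => ?_)
  rw [h1.1 m f j hf]
  have hD : ∀ x, PTi_D j g x = 0 := by
    have e1 : ∑ S : Finset (Fin m), coeff (PTi_D j g) S ^ 2 = 0 :=
      Finset.sum_eq_zero fun S _ => by
        rw [PTi_D_zero j g hg S (Nat.succ_pos _)]
        norm_num
    rw [Q.parseval] at e1
    have e2 : ∑ x : Fin m → Bool, PTi_D j g x ^ 2 = 0 := by
      unfold T.mean at e1
      rcases div_eq_zero_iff.1 e1 with h | h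
      · exact h
      · exact absurd h (by positivity)
    intro x
    have e3 := (Finset.sum_eq_zero_iff_of_nonneg (fun y _ => sq_nonneg (PTi_D j g y))).1 e2 x
      (Finset.mem_univ x)
    exact pow_eq_zero_iff (two_ne_zero) |>.1 e3
  have hff : ∀ x, (1 - f x * f (fl j x)) / 2 = 0 := by
    intro x
    have e4 := PTi_Dc j g x
    rw [hD x, mul_zero] at e4
    have e5 : g (fl j x) = g x := by linarith
    have e6 := hp x
    have e7 := hp (fl j x)
    rw [e5] at e7
    rcases hf x with ha | ha <;> rcases hf (fl j x) with hb | hb <;> rw [ha] at e6 ⊢ <;>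
      rw [hb] at e7 ⊢
    · norm_num
    · exfalso; linarith
    · exfalso; linarith
    · norm_num
  simp only [hff]
  exact Q.mean_const 0

/-- Total influence of a polynomial threshold function. -/
theorem rPTi (h1 : S_PQf) : S_PTi := by
  intro d m
  induction d with
  | zero =>
    intro f hf
    show influence f ≤ 0
    exact PTi_base h1 f hf
  | succ d ih =>
    intro f hfg
    obtain ⟨hf, g, hg, hp⟩ := hfg
    show influence f ≤ Real.sqrt (m + m * Bq d m)
    have hPt : ∀ j, Pt d (PTi_h j g) := fun j => PTi_pt j g hg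
    have e1 : influence f = T.mean (fun x => f x * ∑ j : Fin m, PTi_c j x * PTi_h j g x) := by
      have e2 : (fun x => f x * ∑ j : Fin m, PTi_c j x * PTi_h j g x) =
          fun x => ∑ j : Fin m, f x * (PTi_c j x * PTi_h j g x) := by
        funext x
        rw [Finset.mul_sum]
      rw [e2, Q.mean_sum, h1.2 m f]
      refine Finset.sum_congr rfl fun j _ => ?_
      rw [h1.1 m f j hf, ← PTi_pair j (fun x => f x * (PTi_c j x * PTi_h j g x))]
      congr 1
      funext x
      exact (PTi_key j f g hf hp x).symm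
    have e3 : T.mean (fun x => f x ^ 2) = 1 := by
      have : (fun x => f x ^ 2) = fun _ => (1 : ℝ) := by
        funext x
        rcases hf x with h | h <;> rw [h] <;> norm_num
      rw [this, Q.mean_const]
    have e4 := Q.mean_cs f (fun x => ∑ j : Fin m, PTi_c j x * PTi_h j g x)
    rw [e3, Real.sqrt_one, one_mul, ← e1] at e4
    refine le_trans e4 (Real.sqrt_le_sqrt ?_)
    have e5 : (fun x => (∑ j : Fin m, PTi_c j x * PTi_h j g x) ^ 2) =
        fun x => ∑ l : Fin m, ∑ j : Fin m,
          (PTi_c l x * PTi_h l g x) * (PTi_c j x * PTi_h j g x) := by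
      funext x
      rw [pow_two, Finset.sum_mul_sum]
    rw [e5, Q.mean_sum]
    have e6 : ∀ l j : Fin m,
        T.mean (fun x => (PTi_c l x * PTi_h l g x) * (PTi_c j x * PTi_h j g x)) ≤
          (if j = l then 1 else 0) + Qf (PTi_h l g) j := by
      intro l j
      by_cases hjl : j = l
      · subst hjl
        rw [if_pos rfl]
        have e7 : (fun x => (PTi_c j x * PTi_h j g x) * (PTi_c j x * PTi_h j g x)) =
            fun _ => (1 : ℝ) := by
          funext x
          rcases PTi_c_val j x with h | h <;> rcases PTi_h_val j g x with h' | h' <;>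
            rw [h, h'] <;> norm_num
        rw [e7, Q.mean_const]
        linarith [PTi_Qf_nonneg (PTi_h j g) j]
      · rw [if_neg hjl, zero_add, h1.1 m (PTi_h l g) j (PTi_h_val l g),
          ← PTi_pair j (fun x => (PTi_c l x * PTi_h l g x) * (PTi_c j x * PTi_h j g x))]
        refine Q.mean_mono fun x => ?_
        rw [PTi_h_fl j g, PTi_c_fl j, PTi_c_fl' j l (fun h => hjl h.symm)]
        rw [← PTi_pm (PTi_h_val l g x) (PTi_h_val l g (fl j x))]
        have e8 : (PTi_c l x * PTi_h l g x * (PTi_c j x * PTi_h j g x) +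
            PTi_c l x * PTi_h l g (fl j x) * (-PTi_c j x * PTi_h j g x)) / 2 =
            (PTi_c l x * PTi_c j x * PTi_h j g x) * (PTi_h l g x - PTi_h l g (fl j x)) / 2 := by
          ring
        rw [e8]
        have e9 : |PTi_c l x * PTi_c j x * PTi_h j g x| = 1 := by
          rcases PTi_c_val l x with h | h <;> rcases PTi_c_val j x with h' | h' <;>
            rcases PTi_h_val j g x with h'' | h'' <;> rw [h, h', h''] <;> norm_num
        have e10 := le_abs_self
          ((PTi_c l x * PTi_c j x * PTi_h j g x) * (PTi_h l g x - PTi_h l g (fl j x)))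
        rw [abs_mul, e9, one_mul] at e10
        linarith
    have e11 : ∀ l : Fin m,
        T.mean (fun x => ∑ j : Fin m, (PTi_c l x * PTi_h l g x) * (PTi_c j x * PTi_h j g x)) ≤
          1 + Bq d m := by
      intro l
      rw [Q.mean_sum]
      refine le_trans (Finset.sum_le_sum fun j _ => e6 l j) ?_
      rw [Finset.sum_add_distrib, ← h1.2 m (PTi_h l g), Finset.sum_ite_eq' Finset.univ l,
        if_pos (Finset.mem_univ l)]
      linarith [ih (PTi_h l g) (hPt l)]
    refine le_trans (Finset.sum_le_sum fun l _ => e11 l) (le_of_eq ?_)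
    rw [Finset.sum_const, Finset.card_univ, Fintype.card_fin, nsmul_eq_mul]
    ring

end Pool.Agent.MP3145b1.LD
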